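import Pool.Agent.N20.EW.Stm
import Pool.Agent.Y210.NV2.NQ
import Pool.Agent.Y63.KR.Basic
import Pool.Agent.Helper884.IC.Compl

/-!
# Weights of a cyclic extension: from defect zero to all weights (theorem C2)
-/

set_option autoImplicit false

open scoped Classical BigOperators

noncomputable section

namespace Pool.Agent.N868.EW

open Pool.Agent.Y63.NV Pool.Agent.Y63.KR Pool.Agent.N20.EW
open Pool.Agent.Y63.AWC (IsIrreducibleCharacter)
open Pool.Agent.Y210.NV3

theorem finsum_inj {α β N : Type} [AddCommMonoid N] (e : α → β) (he : Function.Injective e)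
    (f : α → N) (g : β → N) (h1 : ∀ a, f a = g (e a)) (h2 : ∀ b, b ∉ Set.range e → g b = 0) :
    ∑ᶠ a, f a = ∑ᶠ b, g b := by
  rw [finsum_congr h1, ← finsum_mem_range he (f := g)]
  refine finsum_congr fun b => ?_
  rw [finsum_eq_if]
  split_ifs with h
  · rfl
  · exact (h2 b h).symm

/-- the sums over the fibres -/
def pu {F M H : Type} [Field F] [Group M] [Group H] (π : M →* H) (z : M → F) : H → F :=
  fun y => ∑ᶠ x : M, if π x = y then z x else 0

/-- one subgroup -/
theorem key (h1 : S_INF) (p : ℕ) {F K H : Type} [Field F] [Group K] [Finite K] [Group H]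
    (red : integralClosure ℤ ℂ →+* F) (M : Subgroup K) (π : M →* H) (hπ : Function.Surjective π)
    (z : K → F) (hz : IsClassFun z) (c : F) (J Q : Subgroup K) (J' Q' : Subgroup H)
    (hJ : J = (J'.comap π).map M.subtype) (hQ : Q = (Q'.comap π).map M.subtype) :
    Nat.card J * Nw p red (Q.subgroupOf J) (fun x => z x) c =
      Nat.card π.ker * (Nat.card J' *
        Nw p red (Q'.subgroupOf J') (fun y => pu π (fun x : M => z x) y) c) := by
  have hmem : ∀ (S : Subgroup M) (x : K), x ∈ S.map M.subtype ↔ ∃ h : x ∈ M, (⟨x, h⟩ : M) ∈ S := by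
    intro S x
    rw [Subgroup.mem_map]
    constructor
    · rintro ⟨m, hm, rfl⟩
      exact ⟨m.2, hm⟩
    · rintro ⟨h, hm⟩
      exact ⟨_, hm, rfl⟩
  have hcard : Nat.card J = Nat.card π.ker * Nat.card J' := by
    rw [← card_comap π hπ J', hJ]
    exact (Nat.card_congr ((J'.comap π).equivMapOfInjective M.subtype
      Subtype.val_injective).toEquiv).symm
  have hJm : ∀ x : K, x ∈ J ↔ ∃ h : x ∈ M, π ⟨x, h⟩ ∈ J' := by
    intro x
    rw [hJ, hmem]
    rfl
  have hm : ∀ x : J, (x : K) ∈ M := fun x => ((hJm x).1 x.2).1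
  have hm' : ∀ x : J, π ⟨x, hm x⟩ ∈ J' := fun x => ((hJm x).1 x.2).2
  obtain ⟨θ, hθ⟩ : ∃ θ : J →* J', ∀ x : J, (θ x : H) = π ⟨x, hm x⟩ := by
    refine ⟨{ toFun := fun x => ⟨π ⟨x, hm x⟩, hm' x⟩, map_one' := ?_, map_mul' := ?_ },
      fun x => rfl⟩
    · apply Subtype.ext
      exact map_one π
    · intro x y
      apply Subtype.ext
      exact map_mul π ⟨x, hm x⟩ ⟨y, hm y⟩
  have hθs : Function.Surjective θ := by
    rintro ⟨y, hy⟩
    obtain ⟨m, rfl⟩ := hπ y
    have h2 : (m : K) ∈ J := (hJm m).2 ⟨m.2, hy⟩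
    refine ⟨⟨m, h2⟩, Subtype.ext ?_⟩
    rw [hθ]
  have e1 : Q.subgroupOf J = (Q'.subgroupOf J').comap θ := by
    ext x
    rw [Subgroup.mem_comap, Subgroup.mem_subgroupOf, Subgroup.mem_subgroupOf, hθ, hQ, hmem]
    exact ⟨fun h => h.2, fun h => ⟨hm x, h⟩⟩
  rw [hcard, e1, nw_comap θ hθs h1 p red (Q'.subgroupOf J') (fun x => z x)
    (fun g x => hz g x) c, mul_assoc]
  congr 3
  funext y
  refine finsum_inj (fun x : J => (⟨x, hm x⟩ : M)) ?_ _ _ ?_ ?_
  · intro a b hab
    exact Subtype.ext (congrArg (fun m : M => (m : K)) hab)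
  · intro a
    have : θ a = y ↔ π ⟨a, hm a⟩ = (y : H) := by
      rw [← hθ]
      exact ⟨fun h => congrArg Subtype.val h, fun h => Subtype.ext h⟩
    simp only [this]
  · intro b hb
    rw [if_neg]
    intro h
    apply hb
    have h2 : (b : K) ∈ J := (hJm b).2 ⟨b.2, by
      show π b ∈ J'
      rw [h]
      exact y.2⟩
    exact ⟨⟨b, h2⟩, rfl⟩

section quot

variable {F A M N H : Type} [Field F] [Group A] [Group M] [Group N] [Group H]
  (iM : A →* M) (πA : A →* N) (π : M →* H) (j : N →* H) (z : M → F)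

/-- the quotient by a normal subgroup contained in the smaller group -/
theorem cyc_quot (hE : CycExt iM z) (hA : Function.Surjective πA) (hπ : Function.Surjective π)
    (hc : ∀ a, j (πA a) = π (iM a)) (hk : ∀ m, π m = 1 → ∃ a, πA a = 1 ∧ iM a = m) :
    CycExt j (pu π z) := by
  refine ⟨?_, ⟨?_⟩, ?_, ?_, ?_⟩
  · rw [injective_iff_map_eq_one]
    intro n hn
    obtain ⟨a, rfl⟩ := hA n
    rw [hc] at hn
    obtain ⟨b, hb, hb'⟩ := hk _ hn
    rw [← hE.inj hb', hb]
  · rintro _ ⟨n, rfl⟩ h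
    obtain ⟨a, rfl⟩ := hA n
    obtain ⟨m, rfl⟩ := hπ h
    obtain ⟨b, hb⟩ := hE.normal.conj_mem (iM a) ⟨a, rfl⟩ m
    refine ⟨πA b, ?_⟩
    rw [hc, hb, hc, map_mul, map_mul, map_inv]
  · obtain ⟨t, ht⟩ := hE.cyc
    refine ⟨π t, fun h => ?_⟩
    obtain ⟨m, rfl⟩ := hπ h
    obtain ⟨n, a, hna⟩ := ht m
    refine ⟨n, πA a, ?_⟩
    rw [hna, map_mul, map_zpow, hc]
  · intro h y
    obtain ⟨m, rfl⟩ := hπ h
    unfold pu
    rw [← finsum_comp_equiv (MulAut.conj m).toEquiv]
    refine finsum_congr fun x => ?_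
    have e1 : (MulAut.conj m).toEquiv x = m * x * m⁻¹ := rfl
    rw [e1, hE.cl]
    have e2 : π (m * x * m⁻¹) = π m * y * (π m)⁻¹ ↔ π x = y := by
      rw [map_mul, map_mul, map_inv, mul_left_inj, mul_right_inj]
    simp only [e2]
  · intro y hy
    unfold pu
    refine finsum_eq_zero_of_forall_eq_zero fun x => ?_
    split_ifs with h
    · apply hE.supp
      rintro ⟨a, rfl⟩
      exact hy ⟨πA a, by rw [hc, h]⟩
    · rfl

/-- the values of the push-forward on the smaller group -/
theorem pu_val (hE : CycExt iM z) (hj : Function.Injective j)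
    (hc : ∀ a, j (πA a) = π (iM a)) (n : N) :
    (∑ᶠ a : A, if πA a = n then z (iM a) else 0) = pu π z (j n) := by
  unfold pu
  refine finsum_inj iM hE.inj _ _ ?_ ?_
  · intro a
    have : πA a = n ↔ π (iM a) = j n := by
      rw [← hc]
      exact hj.eq_iff.symm
    simp only [this]
  · intro b hb
    rw [hE.supp b hb, ite_self]

/-- preimages -/
theorem card_pre [Finite M] (hπ : Function.Surjective π) (S : H → Prop) :
    Nat.card {m : M // S (π m)} = Nat.card π.ker * Nat.card {h : H // S h} := by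
  rw [← Nat.card_prod]
  refine Nat.card_congr ?_
  exact
    { toFun := fun m => (⟨(Function.surjInv hπ (π m.1))⁻¹ * m.1, by
        rw [MonoidHom.mem_ker, map_mul, map_inv, Function.surjInv_eq hπ, inv_mul_cancel]⟩,
        ⟨π m.1, m.2⟩)
      invFun := fun x => ⟨Function.surjInv hπ x.2.1 * x.1.1, by
        rw [map_mul, MonoidHom.mem_ker.1 x.1.2, mul_one, Function.surjInv_eq hπ]
        exact x.2.2⟩
      left_inv := fun m => Subtype.ext (mul_inv_cancel_left _ _)
      right_inv := fun x => by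
        obtain ⟨⟨k, hk⟩, ⟨h, hh⟩⟩ := x
        have e1 : π (Function.surjInv hπ h * k) = h := by
          rw [map_mul, MonoidHom.mem_ker.1 hk, mul_one, Function.surjInv_eq hπ]
        refine Prod.ext (Subtype.ext ?_) (Subtype.ext e1)
        show (Function.surjInv hπ (π (Function.surjInv hπ h * k)))⁻¹ *
          (Function.surjInv hπ h * k) = k
        rw [e1, inv_mul_cancel_left] }

/-- stabilisers and inflation -/
theorem stc_quot [Finite M] (hA : Function.Surjective πA)
    (hπ : Function.Surjective π)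
    (hc : ∀ a, j (πA a) = π (iM a)) (hk : ∀ m, π m = 1 → ∃ a, πA a = 1 ∧ iM a = m)
    {X : Type} (ψ : N → X) :
    stc iM (fun a => ψ (πA a)) = Nat.card π.ker * stc j ψ := by
  unfold stc
  rw [← card_pre π hπ]
  refine Nat.card_congr (Equiv.subtypeEquivRight fun m => ?_)
  constructor
  · intro h x y hxy
    obtain ⟨a, rfl⟩ := hA x
    obtain ⟨b, rfl⟩ := hA y
    rw [hc, hc] at hxy
    obtain ⟨r, hr, hr'⟩ := hk ((iM b)⁻¹ * (m * iM a * m⁻¹)) (by
      rw [map_mul, map_inv, hxy, map_mul, map_mul, map_inv, inv_mul_cancel])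
    have h2 : ψ (πA (b * r)) = ψ (πA a) :=
      h a (b * r) (by rw [map_mul, hr', mul_inv_cancel_left])
    rw [map_mul, hr, mul_one] at h2
    exact h2
  · intro h x y hxy
    apply h
    rw [hc, hc, hxy, map_mul, map_mul, map_inv]

theorem card_ker (hi : Function.Injective iM) (hc : ∀ a, j (πA a) = π (iM a))
    (hk : ∀ m, π m = 1 → ∃ a, πA a = 1 ∧ iM a = m) :
    Nat.card πA.ker = Nat.card π.ker := by
  refine Nat.card_congr (Equiv.ofBijective (fun a : πA.ker => (⟨iM a, by
    rw [MonoidHom.mem_ker, ← hc, MonoidHom.mem_ker.1 a.2, map_one]⟩ : π.ker)) ⟨?_, ?_⟩)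
  · intro a b hab
    exact Subtype.ext (hi (congrArg Subtype.val hab))
  · rintro ⟨m, hm⟩
    obtain ⟨a, ha, ha'⟩ := hk m hm
    exact ⟨⟨a, ha⟩, Subtype.ext ha'⟩

theorem tt_quot [Finite A] [Finite M] (hi : Function.Injective iM) (hA : Function.Surjective πA)
    (hπ : Function.Surjective π)
    (hc : ∀ a, j (πA a) = π (iM a)) (hk : ∀ m, π m = 1 → ∃ a, πA a = 1 ∧ iM a = m)
    {X : Type} (ψ : N → X) :
    tt iM (fun a => ψ (πA a)) = tt j ψ := by
  unfold tt
  rw [stc_quot iM πA π j hA hπ hc hk, card_dom πA hA, card_ker iM πA π j hi hc hk]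
  exact Nat.mul_div_mul_left _ _ Nat.card_pos

end quot

section norm

variable {G K : Type} [Group G] [Group K] (i : G →* K) (R : Subgroup G)

theorem mem_nrm (hi : Function.Injective i) (g : G) :
    i g ∈ Subgroup.normalizer ((R.map i : Subgroup K) : Set K) ↔
      g ∈ Subgroup.normalizer (R : Set G) := by
  rw [Subgroup.mem_normalizer_iff, Subgroup.mem_normalizer_iff]
  constructor
  · intro h r
    have h2 := h (i r)
    rw [Subgroup.mem_map_iff_mem hi] at h2
    rw [h2, ← map_inv, ← map_mul, ← map_mul, Subgroup.mem_map_iff_mem hi]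
  · intro h k
    constructor
    · rintro ⟨r, hr, rfl⟩
      exact ⟨g * r * g⁻¹, (h r).1 hr, by rw [map_mul, map_mul, map_inv]⟩
    · rintro ⟨r, hr, hr'⟩
      refine ⟨g⁻¹ * r * g, ?_, ?_⟩
      · refine (h _).2 ?_
        have : g * (g⁻¹ * r * g) * g⁻¹ = r := by group
        rw [this]
        exact hr
      · rw [map_mul, map_mul, map_inv, hr']
        group

/-- the restriction of the embedding to the normalisers -/
def nm (hi : Function.Injective i) : Subgroup.normalizer (R : Set G) →*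
    Subgroup.normalizer ((R.map i : Subgroup K) : Set K) where
  toFun a := ⟨i a, (mem_nrm i R hi a).2 a.2⟩
  map_one' := Subtype.ext (map_one i)
  map_mul' a b := Subtype.ext (map_mul i (a : G) (b : G))

theorem cyc_nm {F : Type} [Field F] {z : K → F} (hE : CycExt i z) :
    CycExt (nm i R hE.inj)
      (fun m : Subgroup.normalizer ((R.map i : Subgroup K) : Set K) => z m) := by
  have hrg : ∀ m : Subgroup.normalizer ((R.map i : Subgroup K) : Set K), (m : K) ∈ i.range →
      m ∈ (nm i R hE.inj).range := by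
    rintro ⟨m, hm⟩ ⟨g, rfl⟩
    exact ⟨⟨g, (mem_nrm i R hE.inj g).1 hm⟩, rfl⟩
  refine ⟨?_, ⟨?_⟩, ?_, ?_, ?_⟩
  · intro a b hab
    exact Subtype.ext (hE.inj (congrArg Subtype.val hab))
  · rintro _ ⟨a, rfl⟩ m
    apply hrg
    exact hE.normal.conj_mem (i a) ⟨a, rfl⟩ m
  · have := hE.normal
    obtain ⟨t₀, ht₀⟩ := hE.cyc
    have hcy : IsCyclic (K ⧸ i.range) := by
      refine ⟨⟨(t₀ : K ⧸ i.range), fun x => ?_⟩⟩
      obtain ⟨k, rfl⟩ := QuotientGroup.mk_surjective x
      obtain ⟨n, g, rfl⟩ := ht₀ k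
      refine ⟨n, ?_⟩
      show (t₀ : K ⧸ i.range) ^ n = _
      rw [QuotientGroup.mk_mul, QuotientGroup.mk_zpow,
        (QuotientGroup.eq_one_iff (N := i.range) (i g)).2 ⟨g, rfl⟩, mul_one]
    obtain ⟨⟨s, hs⟩, hs'⟩ := (Subgroup.isCyclic
      ((Subgroup.normalizer ((R.map i : Subgroup K) : Set K)).map
        (QuotientGroup.mk' i.range))).exists_generator
    obtain ⟨t, ht, rfl⟩ := hs
    refine ⟨⟨t, ht⟩, fun m => ?_⟩
    obtain ⟨n, hn⟩ := hs' ⟨QuotientGroup.mk' i.range m, m, m.2, rfl⟩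
    have hn2 : (QuotientGroup.mk' i.range t) ^ n = QuotientGroup.mk' i.range m :=
      congrArg Subtype.val hn
    have h2 : (((⟨t, ht⟩ : Subgroup.normalizer ((R.map i : Subgroup K) : Set K)) ^ n)⁻¹ * m) ∈
        (nm i R hE.inj).range := by
      apply hrg
      have h3 : ((((⟨t, ht⟩ : Subgroup.normalizer ((R.map i : Subgroup K) : Set K)) ^ n)⁻¹ * m :
          Subgroup.normalizer ((R.map i : Subgroup K) : Set K)) : K) = (t ^ n)⁻¹ * m := rfl
      rw [h3, ← QuotientGroup.eq_one_iff, QuotientGroup.mk_mul, QuotientGroup.mk_inv,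
        QuotientGroup.mk_zpow]
      have h4 : ((t : K ⧸ i.range)) ^ n = ((m : K) : K ⧸ i.range) := hn2
      rw [h4, inv_mul_cancel]
    obtain ⟨a, ha⟩ := h2
    exact ⟨n, a, by rw [ha, mul_inv_cancel_left]⟩
  · intro g x
    exact hE.cl g x
  · intro x hx
    exact hE.supp _ fun h => hx (hrg x h)

theorem tw_eq (hi : Function.Injective i) (ξ : Subgroup.normalizer (R : Set G) → ℂ) :
    tw i R ξ = tt (nm i R hi) ξ := by
  unfold tw tt stc
  congr 1
  refine Nat.card_congr ?_
  exact
    { toFun := fun k => ⟨⟨k.1, conjSub_eq_iff.1 k.2.1⟩, fun x y hxy =>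
        k.2.2 x y (congrArg Subtype.val hxy)⟩
      invFun := fun m => ⟨m.1.1, conjSub_eq_iff.2 m.1.2, fun x y hxy =>
        m.2 x y (Subtype.ext hxy)⟩
      left_inv := fun _ => rfl
      right_inv := fun _ => rfl }

end norm

theorem split {X : Type} [Finite X] (v : X → ℕ) (B : ℕ) (hv : ∀ x, v x < B) (g : X → ℕ) :
    ∑ᶠ x, g x = ∑ k ∈ Finset.range B, ∑ᶠ x, if v x = k then g x else 0 := by
  have := Fintype.ofFinite X
  simp only [finsum_eq_sum_of_fintype]
  rw [Finset.sum_comm]
  refine Finset.sum_congr rfl fun x _ => ?_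
  rw [Finset.sum_ite_eq, if_pos (Finset.mem_range.2 (hv x))]

theorem wt_fin (p : ℕ) {J : Type} [Group J] [Finite J] (Q : Subgroup J) (P : (J → ℂ) → Prop) :
    Finite {χ : J → ℂ // IsWt p Q χ ∧ P χ} := by
  have : Fintype J := Fintype.ofFinite _
  have h2 : Finite {χ : J → ℂ // IsIrreducibleCharacter χ} :=
    (Pool.Agent.Helper884.IC.irr_finite (G := J)).to_subtype
  exact Finite.of_injective (fun χ : {χ : J → ℂ // IsWt p Q χ ∧ P χ} =>
    (⟨χ.1, χ.2.1.irr⟩ : {χ : J → ℂ // IsIrreducibleCharacter χ}))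
    fun a b hab => Subtype.ext (congrArg (fun x : {χ : J → ℂ // IsIrreducibleCharacter χ} => x.1) hab)

theorem fact_lt (p n B : ℕ) (h : n ≤ B) : n.factorization p < B + 1 := by
  by_cases h0 : n = 0
  · subst h0
    simp
  · have := Nat.factorization_lt p h0
    omega

theorem dz_all (h : S_DZR) (p : ℕ) [Fact p.Prime] {F : Type} [Field F] [IsAlgClosed F] [CharP F p]
    (red : integralClosure ℤ ℂ →+* F) {G K : Type} [Group G] [Group K] [Finite G] [Finite K]
    (i : G →* K) (z : K → F) (hE : CycExt i z) (c : F) :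
    (∑ᶠ Q : Subgroup K, if IsPGroup p Q ∧ Q ⊓ i.range = ⊥ then
      Nat.card (Subgroup.normalizer (Q : Set K)) *
        Nw p red (Q.subgroupOf (Subgroup.normalizer (Q : Set K))) (fun x => z x) c else 0) =
    ∑ᶠ ψ : {ψ : G → ℂ // IsWt p (⊥ : Subgroup G) ψ ∧ centralValue red ψ (fun x => z (i x)) = c},
      Nat.card G * pc p (tt i ψ.1) := by
  have hp : p.Prime := Fact.out
  have hf := wt_fin p (⊥ : Subgroup G) (fun ψ => centralValue red ψ (fun x => z (i x)) = c)
  rw [split (fun Q : Subgroup K => (Nat.card Q).factorization p) (Nat.card K + 1)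
    (fun Q => fact_lt p _ _ (Subgroup.card_le_card_group Q)),
    split (fun ψ : {ψ : G → ℂ // IsWt p (⊥ : Subgroup G) ψ ∧
      centralValue red ψ (fun x => z (i x)) = c} => (tt i ψ.1).factorization p) (Nat.card K + 1)
    (fun ψ => fact_lt p _ _ ((Nat.div_le_self _ _).trans (Finite.card_subtype_le _)))]
  refine Finset.sum_congr rfl fun k _ => ?_
  rw [← h p F red G K i z hE c k]
  refine finsum_congr fun Q => ?_
  by_cases h1 : IsPGroup p Q ∧ Q ⊓ i.range = ⊥
  · obtain ⟨e, he⟩ := IsPGroup.iff_card.1 h1.1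
    have h2 : (Nat.card Q).factorization p = e := by
      rw [he, Nat.Prime.factorization_pow hp, Finsupp.single_eq_same]
    by_cases h3 : e = k
    · rw [if_pos (h2.trans h3), if_pos h1, if_pos ⟨h1.1, h1.2, by rw [he, h3]⟩]
    · rw [if_neg (fun h4 => h3 (h2.symm.trans h4)), if_neg]
      rintro ⟨-, -, h4⟩
      exact h3 (Nat.pow_right_injective hp.two_le (he.symm.trans h4))
  · rw [if_neg h1, ite_self, if_neg]
    rintro ⟨h3, h4, -⟩
    exact h1 ⟨h3, h4⟩

section one

variable (h : S_DZR) (h1 : S_INF) (p : ℕ) [Fact p.Prime] {F : Type} [Field F] [IsAlgClosed F]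
  [CharP F p] (red : integralClosure ℤ ℂ →+* F) {G K : Type} [Group G] [Group K] [Finite G]
  [Finite K] (i : G →* K) (z : K → F) (hE : CycExt i z) (c : F) (R : Subgroup G)
  {N H : Type} [Group N] [Group H] [Finite N] [Finite H]
  (πA : Subgroup.normalizer (R : Set G) →* N)
  (π : Subgroup.normalizer ((R.map i : Subgroup K) : Set K) →* H) (j : N →* H)
  (hA : Function.Surjective πA) (hπ : Function.Surjective π)
  (hc : ∀ a, j (πA a) = π (nm i R hE.inj a)) (hkA : ∀ a, πA a = 1 ↔ (a : G) ∈ R)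
  (hk : ∀ m, π m = 1 → ∃ a, πA a = 1 ∧ nm i R hE.inj a = m)

/-- the value at a subgroup of `K` -/
def wv (p : ℕ) {F : Type} [Field F] (red : integralClosure ℤ ℂ →+* F) {K : Type} [Group K]
    (z : K → F) (c : F) (Q : Subgroup K) : ℕ :=
  Nat.card (Subgroup.normalizer (Q : Set K)) *
    Nw p red (Q.subgroupOf (Subgroup.normalizer (Q : Set K))) (fun x => z x) c

/-- the subgroup of `K` belonging to a subgroup of `H` -/
def up {K H : Type} [Group K] [Group H] {M : Subgroup K} (π : M →* H) (Q : Subgroup H) :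
    Subgroup K := (Q.comap π).map M.subtype

theorem mem_up {K H : Type} [Group K] [Group H] {M : Subgroup K} (π : M →* H) (Q : Subgroup H)
    (x : K) : x ∈ up π Q ↔ ∃ h : x ∈ M, π ⟨x, h⟩ ∈ Q := by
  unfold up
  rw [Subgroup.mem_map]
  constructor
  · rintro ⟨m, hm, rfl⟩
    exact ⟨m.2, hm⟩
  · rintro ⟨h, hm⟩
    exact ⟨_, hm, rfl⟩

theorem up_inj {K H : Type} [Group K] [Group H] {M : Subgroup K} (π : M →* H)
    (hπ : Function.Surjective π) : Function.Injective (up π) := by
  intro Q Q' hQ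
  exact Subgroup.comap_injective hπ (Subgroup.map_injective Subtype.val_injective hQ)

include hA hc hkA hk in
theorem up_tr (Q : Subgroup H) : (up π Q).comap i = R ↔ Q ⊓ j.range = ⊥ := by
  constructor
  · intro h2
    rw [eq_bot_iff]
    rintro y ⟨hy, n, rfl⟩
    obtain ⟨a, rfl⟩ := hA n
    have h3 : (a : G) ∈ (up π Q).comap i := by
      rw [Subgroup.mem_comap, mem_up]
      refine ⟨(mem_nrm i R hE.inj a).2 a.2, ?_⟩
      have : π ⟨i a, (mem_nrm i R hE.inj a).2 a.2⟩ = j (πA a) := (hc a).symm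
      rw [this]
      exact hy
    rw [h2, ← hkA] at h3
    rw [Subgroup.mem_bot, h3, map_one]
  · intro h2
    ext g
    rw [Subgroup.mem_comap, mem_up]
    constructor
    · rintro ⟨h3, h4⟩
      have hg := (mem_nrm i R hE.inj g).1 h3
      have h5 : π ⟨i g, h3⟩ = j (πA ⟨g, hg⟩) := (hc ⟨g, hg⟩).symm
      rw [h5] at h4
      have h6 : j (πA ⟨g, hg⟩) ∈ Q ⊓ j.range := ⟨h4, _, rfl⟩
      rw [h2, Subgroup.mem_bot, hc] at h6
      obtain ⟨a, ha, ha'⟩ := hk _ h6
      rw [hkA] at ha
      have h7 : (a : G) = g := hE.inj (congrArg Subtype.val ha')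
      rw [← h7]
      exact ha
    · intro hg
      have hg' : g ∈ Subgroup.normalizer (R : Set G) := Subgroup.le_normalizer hg
      have h3 := (mem_nrm i R hE.inj g).2 hg'
      refine ⟨h3, ?_⟩
      have h5 : π ⟨i g, h3⟩ = j (πA ⟨g, hg'⟩) := (hc ⟨g, hg'⟩).symm
      rw [h5, (hkA ⟨g, hg'⟩).2 hg, map_one]
      exact Q.one_mem

include hE in
/-- the normaliser of `Q` normalises the intersection with the normal subgroup -/
theorem nrm_le (Q : Subgroup K) (hQ : Q.comap i = R) :
    Subgroup.normalizer (Q : Set K) ≤ Subgroup.normalizer ((R.map i : Subgroup K) : Set K) := by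
  have h2 : R.map i = Q ⊓ i.range := by
    rw [← hQ, Subgroup.map_comap_eq, inf_comm]
  have := hE.normal
  intro x hx
  rw [h2, Subgroup.mem_normalizer_iff]
  intro y
  rw [Subgroup.mem_inf, Subgroup.mem_inf]
  refine and_congr (Subgroup.mem_normalizer_iff.1 hx y) ?_
  constructor
  · intro hy
    exact hE.normal.conj_mem y hy x
  · intro hy
    have h3 := hE.normal.conj_mem _ hy x⁻¹
    have h4 : x⁻¹ * (x * y * x⁻¹) * x⁻¹⁻¹ = y := by group
    rw [h4] at h3
    exact h3

include hπ hkA hk in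
/-- a subgroup with `Q ∩ G = R` comes from a subgroup of the quotient -/
theorem exists_up (Q : Subgroup K) (hQ : Q.comap i = R) : ∃ Q' : Subgroup H, up π Q' = Q := by
  have hle : Q ≤ Subgroup.normalizer ((R.map i : Subgroup K) : Set K) :=
    Subgroup.le_normalizer.trans (nrm_le i z hE R Q hQ)
  refine ⟨(Q.subgroupOf _).map π, ?_⟩
  unfold up
  rw [Subgroup.comap_map_eq, sup_eq_left.2, Subgroup.subgroupOf_map_subtype, inf_eq_left.2 hle]
  intro m hm
  obtain ⟨a, ha, rfl⟩ := hk m hm
  have ha2 : (a : G) ∈ Q.comap i := by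
    rw [hQ]
    exact (hkA a).1 ha
  exact ha2

include hE hπ in
/-- the normaliser -/
theorem nrm_up (Q : Subgroup H) (hQ : (up π Q).comap i = R) :
    Subgroup.normalizer ((up π Q : Subgroup K) : Set K) =
      up π (Subgroup.normalizer (Q : Set H)) := by
  have hcj : ∀ (x y : K) (hx : x ∈ Subgroup.normalizer ((R.map i : Subgroup K) : Set K))
      (hy : y ∈ Subgroup.normalizer ((R.map i : Subgroup K) : Set K))
      (hxy : x * y * x⁻¹ ∈ Subgroup.normalizer ((R.map i : Subgroup K) : Set K)),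
      π ⟨x * y * x⁻¹, hxy⟩ = π ⟨x, hx⟩ * π ⟨y, hy⟩ * (π ⟨x, hx⟩)⁻¹ := by
    intro x y hx hy hxy
    rw [← map_inv, ← map_mul, ← map_mul]
    rfl
  ext x
  rw [mem_up]
  constructor
  · intro hx
    have h3 := nrm_le i z hE R _ hQ hx
    refine ⟨h3, ?_⟩
    rw [Subgroup.mem_normalizer_iff]
    intro y
    obtain ⟨m, rfl⟩ := hπ y
    have h4 := Subgroup.mem_normalizer_iff.1 hx m
    rw [mem_up, mem_up] at h4
    constructor
    · intro hy
      obtain ⟨h5, h6⟩ := h4.1 ⟨m.2, hy⟩
      rw [hcj x m h3 m.2 h5] at h6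
      exact h6
    · intro hy
      obtain ⟨h5, h6⟩ := h4.2 ⟨(Subgroup.normalizer ((R.map i : Subgroup K) : Set K)).mul_mem
        ((Subgroup.normalizer ((R.map i : Subgroup K) : Set K)).mul_mem h3 m.2)
        ((Subgroup.normalizer ((R.map i : Subgroup K) : Set K)).inv_mem h3), by
          rw [hcj x m h3 m.2]
          exact hy⟩
      exact h6
  · rintro ⟨h3, h4⟩
    rw [Subgroup.mem_normalizer_iff]
    intro y
    rw [mem_up, mem_up]
    rw [Subgroup.mem_normalizer_iff] at h4
    constructor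
    · rintro ⟨h5, h6⟩
      refine ⟨(Subgroup.normalizer ((R.map i : Subgroup K) : Set K)).mul_mem
        ((Subgroup.normalizer ((R.map i : Subgroup K) : Set K)).mul_mem h3 h5)
        ((Subgroup.normalizer ((R.map i : Subgroup K) : Set K)).inv_mem h3), ?_⟩
      rw [hcj x y h3 h5]
      exact (h4 _).1 h6
    · rintro ⟨h5, h6⟩
      have h7 : y ∈ Subgroup.normalizer ((R.map i : Subgroup K) : Set K) := by
        have h8 : y = x⁻¹ * (x * y * x⁻¹) * x := by group
        rw [h8]
        exact (Subgroup.normalizer ((R.map i : Subgroup K) : Set K)).mul_mem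
          ((Subgroup.normalizer ((R.map i : Subgroup K) : Set K)).mul_mem
          ((Subgroup.normalizer ((R.map i : Subgroup K) : Set K)).inv_mem h3) h5) h3
      refine ⟨h7, (h4 _).2 ?_⟩
      rw [← hcj x y h3 h7 h5]
      exact h6

include h1 hA hπ hc hkA hk in
/-- the sum over the subgroups of `K` belonging to `R` -/
theorem sum_up (hR : IsPGroup p R) :
    (∑ᶠ Q : Subgroup K, if Q.comap i = R then (if IsPGroup p Q then wv p red z c Q else 0) else 0) =
      Nat.card π.ker * ∑ᶠ Q : Subgroup H, if IsPGroup p Q ∧ Q ⊓ j.range = ⊥ then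
        Nat.card (Subgroup.normalizer (Q : Set H)) *
          Nw p red (Q.subgroupOf (Subgroup.normalizer (Q : Set H)))
            (fun x => pu π (fun m => z m) x) c else 0 := by
  rw [mul_finsum]
  symm
  refine finsum_inj (up π) (up_inj π hπ) _ _ ?_ ?_
  · intro Q
    have hkp : IsPGroup p π.ker := by
      have h2 : π.ker ≤ (Subgroup.map (nm i R hE.inj) (R.subgroupOf _)) := by
        intro m hm
        obtain ⟨a, ha, ha'⟩ := hk m hm
        exact ⟨a, (hkA a).1 ha, ha'⟩
      exact IsPGroup.to_le ((hR.comap_of_injective (Subgroup.normalizer (R : Set G)).subtype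
        Subtype.val_injective).map _) h2
    have hpp : IsPGroup p ↥(up π Q) ↔ IsPGroup p Q := by
      constructor
      · intro h3
        have h4 := (h3.comap_of_injective (Subgroup.subtype _) Subtype.val_injective).map π
        have h5 : ((up π Q).comap (Subgroup.subtype
            (Subgroup.normalizer ((R.map i : Subgroup K) : Set K)))).map π = Q := by
          unfold up
          rw [Subgroup.comap_map_eq_self_of_injective Subtype.val_injective,
            Subgroup.map_comap_eq_self_of_surjective hπ]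
        rwa [h5] at h4
      · intro h3
        exact (h3.comap_of_ker_isPGroup π hkp).map _
    have htr := up_tr i z hE R πA π j hA hc hkA hk Q
    by_cases h2 : IsPGroup p Q ∧ Q ⊓ j.range = ⊥
    · rw [if_pos h2, if_pos (htr.2 h2.2), if_pos (hpp.2 h2.1)]
      unfold wv
      exact (key h1 p red _ π hπ z hE.cl c _ _ _ _ (nrm_up i z hE R π hπ Q (htr.2 h2.2)) rfl).symm
    · rw [if_neg h2, mul_zero]
      split_ifs with h3 h4
      · exact absurd ⟨hpp.1 h4, htr.1 h3⟩ h2
      · rfl
      · rfl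
  · intro Q hQ
    rw [if_neg]
    intro h2
    exact hQ (exists_up i z hE R πA π hπ hkA hk Q h2)

include h h1 hA hπ hc hkA hk in
/-- the number of the weights belonging to `R` -/
theorem one_R (hR : IsPGroup p R) :
    (∑ᶠ Q : Subgroup K, if Q.comap i = R then (if IsPGroup p Q then wv p red z c Q else 0) else 0) =
    ∑ᶠ ξ : {ξ : Subgroup.normalizer (R : Set G) → ℂ //
        IsWt p (R.subgroupOf (Subgroup.normalizer (R : Set G))) ξ ∧
        centralValue red ξ (fun x => z (i x)) = c},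
        Nat.card (Subgroup.normalizer (R : Set G)) * pc p (tw i R ξ.1) := by
  have hE1 := cyc_nm i R hE
  have hE2 := cyc_quot (nm i R hE.inj) πA π j _ hE1 hA hπ hc hk
  rw [sum_up h1 p red i z hE c R πA π j hA hπ hc hkA hk hR, dz_all h p red j _ hE2 c, mul_finsum]
  have hker : πA.ker = R.subgroupOf (Subgroup.normalizer (R : Set G)) := by
    ext a
    rw [MonoidHom.mem_ker, hkA, Subgroup.mem_subgroupOf]
  have hbot : (⊥ : Subgroup N).comap πA = R.subgroupOf (Subgroup.normalizer (R : Set G)) := by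
    rw [MonoidHom.comap_bot, hker]
  have hcv : ∀ ψ : N → ℂ, IsIrreducibleCharacter ψ →
      centralValue red (fun a => ψ (πA a)) (fun x : Subgroup.normalizer (R : Set G) => z (i x)) =
        centralValue red ψ (fun x => pu π (fun m => z m) (j x)) := by
    intro ψ hψ
    rw [h1 F red _ N πA ψ _ hA hψ (fun g x => by
      show z (i ((g * x * g⁻¹ : Subgroup.normalizer (R : Set G)) : G)) = z (i x)
      rw [Subgroup.coe_mul, Subgroup.coe_mul, Subgroup.coe_inv, map_mul, map_mul, map_inv, hE.cl])]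
    congr 1
    funext n
    exact pu_val (nm i R hE.inj) πA π j _ hE1 hE2.inj hc n
  refine finsum_eq_of_bijective (fun ψ => ⟨fun a => ψ.1 (πA a), ?_, ?_⟩) ⟨?_, ?_⟩ ?_
  · rw [← hbot]
    exact (wt_iff πA hA p ⊥ ψ.1).2 ψ.2.1
  · rw [hcv ψ.1 ψ.2.1.irr]
    exact ψ.2.2
  · intro ψ ψ' hh
    apply Subtype.ext
    funext n
    obtain ⟨a, rfl⟩ := hA n
    exact congrFun (congrArg Subtype.val hh) a
  · rintro ⟨ξ, h2, h3⟩
    rw [← hbot] at h2
    obtain ⟨ψ, rfl⟩ := wt_exists πA hA p ⊥ h2
    have h4 := (wt_iff πA hA p ⊥ ψ).1 h2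
    refine ⟨⟨ψ, h4, ?_⟩, rfl⟩
    rw [← hcv ψ h4.irr]
    exact h3
  · intro ψ
    show _ = Nat.card (Subgroup.normalizer (R : Set G)) * pc p (tw i R (fun a => ψ.1 (πA a)))
    rw [tw_eq i R hE.inj, tt_quot (nm i R hE.inj) πA π j hE1.inj hA hπ hc hk, card_dom πA hA,
      card_ker (nm i R hE.inj) πA π j hE1.inj hc hk, mul_assoc]

end one

theorem C2 (h : S_DZR) (h1 : S_INF) : S_C2 := by
  intro p _ F _ _ _ red G K _ _ _ _ i z hE c
  have hw : Wz p red z c = ∑ᶠ Q : Subgroup K, if IsPGroup p Q then wv p red z c Q else 0 := rfl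
  rw [hw]
  have e1 : ∑ᶠ Q : Subgroup K, (if IsPGroup p Q then wv p red z c Q else 0) =
      ∑ᶠ R : Subgroup G, ∑ᶠ Q : Subgroup K,
        if Q.comap i = R then (if IsPGroup p Q then wv p red z c Q else 0) else 0 := by
    have := Fintype.ofFinite (Subgroup K)
    have := Fintype.ofFinite (Subgroup G)
    simp only [finsum_eq_sum_of_fintype]
    rw [Finset.sum_comm]
    refine Finset.sum_congr rfl fun Q _ => ?_
    rw [Finset.sum_ite_eq, if_pos (Finset.mem_univ _)]
  rw [e1]
  refine finsum_congr fun R => ?_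
  by_cases hR : IsPGroup p R
  · rw [if_pos hR]
    have hle : R.subgroupOf (Subgroup.normalizer (R : Set G)) ≤
        ((R.map i).subgroupOf (Subgroup.normalizer ((R.map i : Subgroup K) : Set K))).comap
          (nm i R hE.inj) := by
      intro a ha
      exact ⟨a, ha, rfl⟩
    refine one_R h h1 p red i z hE c R
      (QuotientGroup.mk' (R.subgroupOf (Subgroup.normalizer (R : Set G))))
      (QuotientGroup.mk' ((R.map i).subgroupOf
        (Subgroup.normalizer ((R.map i : Subgroup K) : Set K))))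
      (QuotientGroup.map _ _ (nm i R hE.inj) hle)
      (QuotientGroup.mk'_surjective _) (QuotientGroup.mk'_surjective _) (fun a => rfl) ?_ ?_ hR
    · intro a
      exact QuotientGroup.eq_one_iff a
    · intro m hm
      have h2 : m ∈ (R.map i).subgroupOf
        (Subgroup.normalizer ((R.map i : Subgroup K) : Set K)) := (QuotientGroup.eq_one_iff m).1 hm
      obtain ⟨r, hr, hr'⟩ := h2
      refine ⟨⟨r, Subgroup.le_normalizer hr⟩, (QuotientGroup.eq_one_iff _).2 hr, Subtype.ext hr'⟩
  · rw [if_neg hR]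
    refine finsum_eq_zero_of_forall_eq_zero fun Q => ?_
    split_ifs with h2 h3
    · exfalso
      apply hR
      rw [← h2]
      exact h3.comap_of_injective i hE.inj
    · rfl
    · rfl

end Pool.Agent.N868.EW
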