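import Mathlib
import Pool.Agent.N205.WT.Stm

/-!
# Project WT (helper205), part 1: location of the roots by the maximum principle
-/

set_option autoImplicit false

namespace Pool.Agent.N868.WT1

open Polynomial Pool.Agent.R80.WF

/-- the polynomial `A` -/
noncomputable def A (g : ℕ) (a : ℕ → ℤ) (z : ℂ) : ℂ :=
  ∑ i ∈ Finset.range g, (a i : ℂ) * z ^ i + (a g : ℂ) / 2 * z ^ g

/-- the reciprocal polynomial -/
noncomputable def B (g : ℕ) (a : ℕ → ℤ) (z : ℂ) : ℂ :=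
  ∑ i ∈ Finset.range g, (a i : ℂ) * (2 * z) ^ (g - i) + (a g : ℂ) / 2

lemma ev (g : ℕ) (a : ℕ → ℤ) (x : ℂ) : aeval x (PP 2 g a) =
    ∑ i ∈ Finset.range g, (a i : ℂ) * (x ^ (2 * g - i) + 2 ^ (g - i) * x ^ i) +
      (a g : ℂ) * x ^ g := by
  have h2 : aeval x (2 : ℤ[X]) = 2 := map_ofNat _ 2
  simp [PP, map_sum, h2]

lemma term {x : ℂ} (hx : x ≠ 0) (i k : ℕ) : x ^ (i + 2 * k) + 2 ^ k * x ^ i =
    x ^ (2 * (i + k)) * (x⁻¹ ^ i + x⁻¹ ^ (i + k) * (2 * x⁻¹) ^ k) := by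
  have h1 : x ^ (2 * (i + k)) * x⁻¹ ^ i = x ^ (i + 2 * k) := by
    rw [inv_pow, ← div_eq_mul_inv, div_eq_iff (pow_ne_zero _ hx)]
    ring
  have h2 : x ^ (2 * (i + k)) * (x⁻¹ ^ (i + k) * x⁻¹ ^ k) = x ^ i := by
    rw [← pow_add, inv_pow, ← div_eq_mul_inv, div_eq_iff (pow_ne_zero _ hx)]
    ring
  rw [mul_add, h1, mul_pow]
  linear_combination (-(2 : ℂ) ^ k) * h2

lemma ev_inv (g : ℕ) (a : ℕ → ℤ) {x : ℂ} (hx : x ≠ 0) :
    aeval x (PP 2 g a) = x ^ (2 * g) * (A g a x⁻¹ + x⁻¹ ^ g * B g a x⁻¹) := by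
  rw [ev]
  unfold A B
  have h1 : ∀ i ∈ Finset.range g, (a i : ℂ) * (x ^ (2 * g - i) + 2 ^ (g - i) * x ^ i) =
      x ^ (2 * g) * ((a i : ℂ) * x⁻¹ ^ i) + x ^ (2 * g) * (x⁻¹ ^ g * ((a i : ℂ) *
        (2 * x⁻¹) ^ (g - i))) := by
    intro i hi
    rw [Finset.mem_range] at hi
    obtain ⟨k, hk⟩ := Nat.exists_eq_add_of_le hi.le
    have h2 := term hx i k
    have h3 : 2 * g - i = i + 2 * k := by omega
    have h4 : g - i = k := by omega
    rw [h3, h4, h2, hk]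
    ring
  have h2 : x ^ (2 * g) * x⁻¹ ^ g = x ^ g := by
    rw [inv_pow, ← div_eq_mul_inv, div_eq_iff (pow_ne_zero _ hx)]
    ring
  rw [Finset.sum_congr rfl h1, Finset.sum_add_distrib, ← Finset.mul_sum, ← Finset.mul_sum,
    ← Finset.mul_sum]
  linear_combination (-(a g : ℂ)) * h2

/-- the functional equation -/
lemma func (g : ℕ) (a : ℕ → ℤ) {x : ℂ} (hx : x ≠ 0) :
    x ^ (2 * g) * aeval (2 / x) (PP 2 g a) = 2 ^ g * aeval x (PP 2 g a) := by
  rw [ev, ev, mul_add, mul_add, Finset.mul_sum, Finset.mul_sum]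
  congr 1
  · refine Finset.sum_congr rfl fun i hi => ?_
    rw [Finset.mem_range] at hi
    obtain ⟨k, hk⟩ := Nat.exists_eq_add_of_le hi.le
    have h3 : 2 * g - i = i + 2 * k := by omega
    have h4 : g - i = k := by omega
    rw [h3, h4, hk]
    have h1 : x ^ (2 * (i + k)) * (2 / x) ^ (i + 2 * k) = 2 ^ (i + k) * (2 ^ k * x ^ i) := by
      rw [div_pow, mul_div_assoc', div_eq_iff (pow_ne_zero _ hx)]
      ring
    have h2 : x ^ (2 * (i + k)) * (2 / x) ^ i = 2 ^ i * x ^ (i + 2 * k) := by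
      rw [div_pow, mul_div_assoc', div_eq_iff (pow_ne_zero _ hx)]
      ring
    linear_combination (a i : ℂ) * h1 + (a i : ℂ) * 2 ^ k * h2
  · have h1 : x ^ (2 * g) * (2 / x) ^ g = 2 ^ g * x ^ g := by
      rw [div_pow, mul_div_assoc', div_eq_iff (pow_ne_zero _ hx)]
      ring
    linear_combination (a g : ℂ) * h1

lemma ev_zero (g : ℕ) (a : ℕ → ℤ) (hg : 1 ≤ g) (ha : a 0 = 1) : aeval (0 : ℂ) (PP 2 g a) ≠ 0 := by
  rw [ev]
  obtain ⟨g, rfl⟩ : ∃ g', g = g' + 1 := ⟨g - 1, by omega⟩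
  rw [Finset.sum_range_succ']
  have h1 : ∀ i ∈ Finset.range g, (a (i + 1) : ℂ) * (0 ^ (2 * (g + 1) - (i + 1)) +
      2 ^ (g + 1 - (i + 1)) * 0 ^ (i + 1)) = 0 := by
    intro i hi
    rw [Finset.mem_range] at hi
    rw [zero_pow (by omega), zero_pow (by omega)]
    ring
  rw [Finset.sum_eq_zero h1, ha]
  simp

lemma norm_B (g : ℕ) (a : ℕ → ℤ) {z : ℂ} (hz : ‖z‖ = (Real.sqrt 2)⁻¹) :
    ‖B g a z‖ = Real.sqrt 2 ^ g * ‖A g a z‖ := by
  have hs : (0 : ℝ) < Real.sqrt 2 := Real.sqrt_pos.2 (by norm_num)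
  have hs2 : Real.sqrt 2 * Real.sqrt 2 = 2 := Real.mul_self_sqrt (by norm_num)
  have h1 : 2 * z * (starRingEnd ℂ) z = 1 := by
    rw [mul_assoc, Complex.mul_conj, Complex.normSq_eq_norm_sq, hz, inv_pow, sq, hs2]
    norm_num
  have h2 : B g a z = (2 * z) ^ g * (starRingEnd ℂ) (A g a z) := by
    unfold A B
    rw [map_add, map_sum, mul_add, Finset.mul_sum]
    have h3 : ∀ i k : ℕ, (2 * z) ^ (i + k) * (starRingEnd ℂ) z ^ i = (2 * z) ^ k := by
      intro i k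
      have : (2 * z) ^ (i + k) * (starRingEnd ℂ) z ^ i =
          (2 * z * (starRingEnd ℂ) z) ^ i * (2 * z) ^ k := by
        rw [mul_pow (2 * z), pow_add]
        ring
      rw [this, h1, one_pow, one_mul]
    congr 1
    · refine Finset.sum_congr rfl fun i hi => ?_
      rw [Finset.mem_range] at hi
      obtain ⟨k, hk⟩ := Nat.exists_eq_add_of_le hi.le
      have h4 : g - i = k := by omega
      rw [h4, map_mul, map_pow, map_intCast, hk]
      linear_combination (-(a i : ℂ)) * h3 i k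
    · have h4 := h3 g 0
      rw [add_zero, pow_zero] at h4
      rw [map_mul, map_div₀, map_intCast, map_pow]
      have h5 : (starRingEnd ℂ) (2 : ℂ) = 2 := Complex.conj_ofNat 2
      rw [h5]
      linear_combination (-(a g : ℂ) / 2) * h4
  have h3 : 2 * (Real.sqrt 2)⁻¹ = Real.sqrt 2 := by
    rw [← div_eq_mul_inv, div_eq_iff hs.ne']
    exact hs2.symm
  rw [h2, norm_mul, norm_pow, norm_mul, hz, RCLike.norm_conj, Complex.norm_ofNat, h3]

/-- WT/1 -/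
theorem root : Pool.Agent.N205.WT.S_ROOT := by
  intro g a hg ha hA x hx
  have hs : (0 : ℝ) < Real.sqrt 2 := Real.sqrt_pos.2 (by norm_num)
  have hs2 : Real.sqrt 2 * Real.sqrt 2 = 2 := Real.mul_self_sqrt (by norm_num)
  have hρ : (0 : ℝ) < (Real.sqrt 2)⁻¹ := inv_pos.2 hs
  have hA' : ∀ z : ℂ, ‖z‖ ≤ (Real.sqrt 2)⁻¹ → A g a z ≠ 0 := hA
  have hAd : Differentiable ℂ (A g a) := by
    unfold A
    fun_prop
  have hBd : Differentiable ℂ (B g a) := by
    unfold B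
    fun_prop
  have hmax : ∀ z : ℂ, ‖z‖ < (Real.sqrt 2)⁻¹ → ‖B g a z / A g a z‖ ≤ Real.sqrt 2 ^ g := by
    intro z hz
    have hcl : closure (Metric.ball (0 : ℂ) (Real.sqrt 2)⁻¹) =
        Metric.closedBall 0 (Real.sqrt 2)⁻¹ := closure_ball 0 hρ.ne'
    have hd : DiffContOnCl ℂ (fun z => B g a z / A g a z) (Metric.ball 0 (Real.sqrt 2)⁻¹) := by
      apply DifferentiableOn.diffContOnCl
      rw [hcl]
      intro w hw
      rw [mem_closedBall_zero_iff] at hw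
      exact ((hBd w).div (hAd w) (hA' w hw)).differentiableWithinAt
    refine Complex.norm_le_of_forall_mem_frontier_norm_le Metric.isBounded_ball hd ?_
      (subset_closure (by rwa [mem_ball_zero_iff]))
    intro w hw
    rw [frontier_ball 0 hρ.ne', mem_sphere_zero_iff_norm] at hw
    have h1 := norm_pos_iff.2 (hA' w hw.le)
    rw [norm_div, norm_B g a hw, mul_div_assoc, div_self h1.ne', mul_one]
  have hlarge : ∀ y : ℂ, Real.sqrt 2 < ‖y‖ → aeval y (PP 2 g a) ≠ 0 := by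
    intro y hy
    have hy0 : y ≠ 0 := by
      rintro rfl
      rw [norm_zero] at hy
      linarith
    have hz : ‖y⁻¹‖ < (Real.sqrt 2)⁻¹ := by
      rw [norm_inv]
      exact inv_strictAnti₀ hs hy
    rw [ev_inv g a hy0]
    refine mul_ne_zero (pow_ne_zero _ hy0) ?_
    intro h0
    have h1 := hmax _ hz
    have h2 := norm_pos_iff.2 (hA' _ hz.le)
    rw [norm_div, div_le_iff₀ h2] at h1
    have h3 : A g a y⁻¹ = -(y⁻¹ ^ g * B g a y⁻¹) := eq_neg_of_add_eq_zero_left h0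
    have h4 : ‖A g a y⁻¹‖ = ‖y⁻¹‖ ^ g * ‖B g a y⁻¹‖ := by
      conv_lhs => rw [h3]
      rw [norm_neg, norm_mul, norm_pow]
    have h5 : (‖y⁻¹‖ * Real.sqrt 2) ^ g < 1 := by
      apply pow_lt_one₀ (by positivity) _ (by omega)
      have := mul_lt_mul_of_pos_right hz hs
      rwa [inv_mul_cancel₀ hs.ne'] at this
    have h6 : ‖A g a y⁻¹‖ ≤ (‖y⁻¹‖ * Real.sqrt 2) ^ g * ‖A g a y⁻¹‖ := by
      calc ‖A g a y⁻¹‖ = ‖y⁻¹‖ ^ g * ‖B g a y⁻¹‖ := h4
        _ ≤ ‖y⁻¹‖ ^ g * (Real.sqrt 2 ^ g * ‖A g a y⁻¹‖) :=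
            mul_le_mul_of_nonneg_left h1 (by positivity)
        _ = (‖y⁻¹‖ * Real.sqrt 2) ^ g * ‖A g a y⁻¹‖ := by rw [mul_pow]; ring
    nlinarith
  rcases lt_trichotomy ‖x‖ (Real.sqrt 2) with h | h | h
  · exfalso
    rcases eq_or_ne x 0 with rfl | hx0
    · exact ev_zero g a hg ha hx
    · have h1 := func g a hx0
      rw [hx, mul_zero] at h1
      have h2 := (mul_eq_zero.1 h1).resolve_left (pow_ne_zero _ hx0)
      refine hlarge (2 / x) ?_ h2
      rw [norm_div, Complex.norm_ofNat, lt_div_iff₀ (norm_pos_iff.2 hx0)]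
      calc Real.sqrt 2 * ‖x‖ < Real.sqrt 2 * Real.sqrt 2 := mul_lt_mul_of_pos_left h hs
        _ = 2 := hs2
  · exact h
  · exact absurd hx (hlarge x h)

end Pool.Agent.N868.WT1
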