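import Mathlib
import Pool.Agent.N604.MW.Stm

/-!
# Project MW, POINT: pointwise bound for the exponential sums of a diophantine polynomial
-/

set_option autoImplicit false

open Finset Filter

namespace Pool.Agent.N868.MWP

open Pool.Agent.N604.MW

/-- the coefficients of `PP` -/
noncomputable def cf (d : ℕ) (c b : ℝ) (θ : Fin d → ℝ) (j : ℕ) : ℝ :=
  if j = 0 then b else if h : j - 1 < d then θ ⟨j - 1, h⟩ else c

lemma cf_succ (d : ℕ) (c b : ℝ) (θ : Fin d → ℝ) (j : Fin d) : cf d c b θ ((j : ℕ) + 1) = θ j := by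
  unfold cf
  simp

lemma cf_top (d : ℕ) (c b : ℝ) (θ : Fin d → ℝ) : cf d c b θ (d + 1) = c := by
  unfold cf
  simp

lemma cf_zero (d : ℕ) (c b : ℝ) (θ : Fin d → ℝ) : cf d c b θ 0 = b := by
  unfold cf
  simp

lemma sum_cf (d : ℕ) (c b β : ℝ) (θ : Fin d → ℝ) (x : ℝ) :
    ∑ j ∈ range (d + 1 + 1), β * cf d c b θ j * x ^ j = β * PP d c b θ x := by
  rw [Finset.sum_range_succ, Finset.sum_range_succ', cf_top, cf_zero, Finset.sum_range]
  unfold PP
  simp only [cf_succ, pow_zero, mul_one]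
  rw [mul_add, mul_add, Finset.mul_sum]
  have : ∑ j : Fin d, β * θ j * x ^ ((j : ℕ) + 1) = ∑ j : Fin d, β * (θ j * x ^ ((j : ℕ) + 1)) :=
    Finset.sum_congr rfl fun j _ => by ring
  rw [this]
  ring

lemma ev_rpow (s K : ℝ) (hs : 0 < s) : ∀ᶠ X : ℕ in atTop, K < (X : ℝ) ^ s :=
  ((tendsto_rpow_atTop hs).comp tendsto_natCast_atTop_atTop).eventually (eventually_gt_atTop K)

/-- POINT: pointwise bound for a diophantine polynomial -/
theorem point (h : S_WEYL) : S_POINT := by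
  intro d c b θ hd hc hDio C0 δ hδ
  obtain ⟨κ, hκ, hDio⟩ := hDio
  obtain ⟨C, m, hC⟩ := h (d + 1) C0 (by omega)
  obtain ⟨δ', hδ'⟩ : ∃ δ' : ℝ, δ' = min δ 1 := ⟨_, rfl⟩
  have hδ'0 : 0 < δ' := by
    rw [hδ']
    positivity
  have hδ'1 : δ' ≤ 1 := hδ' ▸ min_le_right _ _
  have hδ'δ : δ' ≤ δ := hδ' ▸ min_le_left _ _
  obtain ⟨σ, hσ⟩ : ∃ σ : ℝ, σ = δ' / (4 * m + 4) := ⟨_, rfl⟩
  have hm0 : (0 : ℝ) ≤ m := Nat.cast_nonneg m
  have hσ0 : 0 < σ := by
    rw [hσ]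
    positivity
  have hσm : σ * (4 * m + 4) = δ' := by
    rw [hσ]
    field_simp
  have hs1 : 0 < δ - m * σ := by nlinarith
  have hs2 : 0 < 1 - (3 * m + 2) * σ := by nlinarith
  let jd : Fin d := ⟨d - 1, by omega⟩
  have hjd : (jd : ℕ) + 1 = d := by
    show d - 1 + 1 = d
    omega
  obtain ⟨K, hK⟩ : ∃ K : ℝ, K = (c + 1) ^ 2 * C ^ 2 * ((|θ jd| + c) * C) := ⟨_, rfl⟩
  obtain ⟨X0, hX0⟩ := eventually_atTop.1 (((ev_rpow _ (C / c) hs1).and (ev_rpow _ (K / κ) hs2)).and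
    (eventually_ge_atTop 1))
  refine ⟨σ, hσ0, X0, ?_⟩
  intro X A L hX hAL β hβ1 hβ2
  obtain ⟨⟨e1, e2⟩, e3⟩ := hX0 X hX
  have hX1 : (1 : ℝ) ≤ X := by exact_mod_cast e3
  have hXp : (0 : ℝ) < X := by linarith
  by_contra hcon
  push Not at hcon
  obtain ⟨u, hu⟩ : ∃ u : ℝ, u = (X : ℝ) ^ σ := ⟨_, rfl⟩
  have hu1 : 1 ≤ u := hu ▸ Real.one_le_rpow hX1 hσ0.le
  obtain ⟨q, hq1, hq, ⟨a, ha⟩, b', hb'⟩ := hC (fun j => β * cf d c b θ j) X A L u e3 hAL hu1 (by
    have e4 : (X : ℝ) = u * (X : ℝ) ^ (1 - σ) := by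
      rw [hu, ← Real.rpow_add hXp, add_sub_cancel, Real.rpow_one]
    have e5 : ∀ n : ℕ, ∑ j ∈ range (d + 1 + 1), β * cf d c b θ j * ((A + n : ℕ) : ℝ) ^ j =
      β * PP d c b θ ((A + n : ℕ) : ℝ) := fun n => sum_cf d c b β θ _
    simp only [e5]
    calc (X : ℝ) = u * (X : ℝ) ^ (1 - σ) := e4
      _ ≤ _ := mul_le_mul_of_nonneg_left hcon.le (by linarith))
  simp only [cf_top, add_tsub_cancel_right] at ha hb'
  have hcd : cf d c b θ d = θ jd := by
    have := cf_succ d c b θ jd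
    rwa [hjd] at this
  rw [hcd] at hb'
  obtain ⟨U, hU⟩ : ∃ U : ℝ, U = u ^ m := ⟨_, rfl⟩
  have hU1 : 1 ≤ U := hU ▸ one_le_pow₀ hu1
  have hUX : U = (X : ℝ) ^ (m * σ) := by
    rw [hU, hu, ← Real.rpow_natCast, ← Real.rpow_mul hXp.le, mul_comm]
  rw [← hU] at hq ha hb'
  have hC0 : (0 : ℝ) ≤ C := Nat.cast_nonneg C
  have hq1' : (1 : ℝ) ≤ q := by exact_mod_cast hq1
  have hXd : (X : ℝ) ^ (d + 1) = (X : ℝ) ^ ((d : ℝ) + 1) := by
    rw [← Real.rpow_natCast]
    push_cast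
    rfl
  by_cases ha0 : a = 0
  · rw [ha0, Int.cast_zero, sub_zero] at ha
    have f1 : |β| * c ≤ C * U / (X : ℝ) ^ (d + 1) := by
      refine le_trans ?_ ha
      rw [abs_mul, abs_mul, abs_of_pos hc, abs_of_nonneg (by linarith : (0 : ℝ) ≤ q)]
      have : 0 ≤ |β| * c := by positivity
      nlinarith
    have f2 : (X : ℝ) ^ (δ - m * σ) ≤ C / c := by
      rw [le_div_iff₀ hc]
      have f3 : (X : ℝ) ^ (-((d : ℝ) + 1) + δ) * c ≤ C * U / (X : ℝ) ^ (d + 1) :=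
        (mul_le_mul_of_nonneg_right hβ1 hc.le).trans f1
      rw [le_div_iff₀ (by positivity), hXd] at f3
      have f4 : (X : ℝ) ^ (-((d : ℝ) + 1) + δ) * c * (X : ℝ) ^ ((d : ℝ) + 1) =
          (X : ℝ) ^ (δ - m * σ) * c * U := by
        rw [hUX]
        have f5 : (X : ℝ) ^ (-((d : ℝ) + 1) + δ) * (X : ℝ) ^ ((d : ℝ) + 1) =
            (X : ℝ) ^ (δ - m * σ) * (X : ℝ) ^ (m * σ) := by
          rw [← Real.rpow_add hXp, ← Real.rpow_add hXp]
          congr 1
          ring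
        linear_combination c * f5
      rw [f4] at f3
      exact le_of_mul_le_mul_right f3 (by linarith)
    linarith
  · have g1 := hDio jd hjd a b' ha0
    have ha2 : 1 ≤ |(a : ℝ)| := by
      have := Int.one_le_abs ha0
      exact_mod_cast this
    have hXσ : |β| ≤ u := by rw [hu]; exact hβ2
    have hXd1 : 1 ≤ (X : ℝ) ^ (d + 1) := one_le_pow₀ hX1
    have g2 : |(a : ℝ)| ≤ (c + 1) * C * U * u := by
      have g3 : |(a : ℝ)| ≤ |q * (β * c)| + |q * (β * c) - a| := by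
        have := abs_sub (q * (β * c)) (q * (β * c) - a)
        rwa [sub_sub_cancel] at this
      have g4 : |q * (β * c)| ≤ C * U * (u * c) := by
        rw [abs_mul, abs_mul, abs_of_pos hc, abs_of_nonneg (by linarith : (0 : ℝ) ≤ q)]
        exact mul_le_mul hq (mul_le_mul_of_nonneg_right hXσ hc.le) (by positivity) (by positivity)
      have g5 : |q * (β * c) - a| ≤ C * U := by
        refine ha.trans ?_
        exact div_le_self (by positivity) hXd1
      have g6 : C * U ≤ C * U * u := le_mul_of_one_le_right (by positivity) hu1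
      calc |(a : ℝ)| ≤ C * U * (u * c) + C * U * u := by linarith
        _ = (c + 1) * C * U * u := by ring
    have g3 : |a * θ jd - b' * c| ≤ (|θ jd| + c) * (C * U / (X : ℝ) ^ d) := by
      have h1 : a * θ jd - b' * c = c * (q * (β * θ jd) - b') - θ jd * (q * (β * c) - a) := by ring
      rw [h1]
      refine (abs_sub _ _).trans ?_
      rw [abs_mul, abs_mul, abs_of_pos hc]
      have h2 : C * U / (X : ℝ) ^ (d + 1) ≤ C * U / (X : ℝ) ^ d :=
        div_le_div_of_nonneg_left (by positivity) (by positivity)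
          (pow_le_pow_right₀ hX1 (by omega))
      have h3 := mul_le_mul_of_nonneg_left hb' hc.le
      have h4 := mul_le_mul_of_nonneg_left (ha.trans h2) (abs_nonneg (θ jd))
      linarith
    have g4 : κ ≤ (a : ℝ) ^ 2 * ((|θ jd| + c) * (C * U / (X : ℝ) ^ d)) := by
      have h1 := g1.trans g3
      have h2 : 0 < (a : ℝ) ^ 2 := by
        rw [← sq_abs]
        positivity
      rw [div_le_iff₀ h2] at h1
      linarith
    have g5 : (a : ℝ) ^ 2 ≤ ((c + 1) * C * U * u) ^ 2 := by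
      rw [← sq_abs]
      exact pow_le_pow_left₀ (abs_nonneg _) g2 2
    have g6 : κ * (X : ℝ) ^ d ≤ K * (U ^ 3 * u ^ 2) := by
      have h1 : 0 ≤ (|θ jd| + c) * (C * U / (X : ℝ) ^ d) := by positivity
      have h2 := g4.trans (mul_le_mul_of_nonneg_right g5 h1)
      have h3 : ((c + 1) * C * U * u) ^ 2 * ((|θ jd| + c) * (C * U / (X : ℝ) ^ d)) =
          K * (U ^ 3 * u ^ 2) / (X : ℝ) ^ d := by
        rw [hK]
        ring
      rw [h3, le_div_iff₀ (by positivity)] at h2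
      exact h2
    have g7 : U ^ 3 * u ^ 2 = (X : ℝ) ^ ((3 * m + 2) * σ) := by
      rw [hUX, hu, ← Real.rpow_natCast, ← Real.rpow_natCast, ← Real.rpow_mul hXp.le,
        ← Real.rpow_mul hXp.le, ← Real.rpow_add hXp]
      congr 1
      push_cast
      ring
    have g8 : (X : ℝ) ≤ (X : ℝ) ^ d := le_self_pow₀ hX1 (by omega)
    have g9 : (X : ℝ) ^ (1 - (3 * m + 2) * σ) ≤ K / κ := by
      rw [le_div_iff₀ hκ]
      have h1 : (X : ℝ) = (X : ℝ) ^ (1 - (3 * m + 2) * σ) * (U ^ 3 * u ^ 2) := by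
        rw [g7, ← Real.rpow_add hXp, sub_add_cancel, Real.rpow_one]
      have h2 : κ * (X : ℝ) ≤ K * (U ^ 3 * u ^ 2) :=
        (mul_le_mul_of_nonneg_left g8 hκ.le).trans g6
      rw [h1] at h2
      have h3 : 0 < U ^ 3 * u ^ 2 := by positivity
      have h4 : κ * (((X : ℝ) ^ (1 - (3 * m + 2) * σ)) * (U ^ 3 * u ^ 2)) =
        ((X : ℝ) ^ (1 - (3 * m + 2) * σ) * κ) * (U ^ 3 * u ^ 2) := by ring
      rw [h4] at h2
      exact le_of_mul_le_mul_right h2 h3
    linarith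

end Pool.Agent.N868.MWP
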