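import Mathlib
import Pool.Agent.N604.MW.Stm

/-!
# Project MW, TPOINT: minor arcs for the integer parts
-/

set_option autoImplicit false

open Finset Filter

namespace Pool.Agent.N868.MWT

open Pool.Agent.N604.MW

/-- the majorant -/
noncomputable def Mj (h : ℤ) : ℝ := 8 * (|(h : ℝ)| ^ (-(3 / 2) : ℝ) + if h = 0 then 1 else 0)

lemma Mj_nonneg (h : ℤ) : 0 ≤ Mj h := by
  unfold Mj
  have : 0 ≤ |(h : ℝ)| ^ (-(3 / 2) : ℝ) := Real.rpow_nonneg (abs_nonneg _) _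
  split_ifs <;> linarith

lemma summable_Mj : Summable Mj := by
  unfold Mj
  apply Summable.mul_left
  apply Summable.add
  · exact Real.summable_abs_int_rpow (by norm_num)
  · exact (hasSum_ite_eq (0 : ℤ) (1 : ℝ)).summable

lemma Mj_lb (h : ℤ) : 8 * (1 + |(h : ℝ)|) ^ (-(3 / 2) : ℝ) ≤ Mj h := by
  unfold Mj
  rcases eq_or_ne h 0 with rfl | hh
  · simp
  · rw [if_neg hh, add_zero]
    have h1 : 0 < |(h : ℝ)| := abs_pos.2 (by exact_mod_cast hh)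
    have h2 : (1 + |(h : ℝ)|) ^ (-(3 / 2) : ℝ) ≤ |(h : ℝ)| ^ (-(3 / 2) : ℝ) :=
      Real.rpow_le_rpow_of_nonpos h1 (by linarith) (by norm_num)
    linarith

lemma abs_ge {α : ℝ} (hα : |α| ≤ 1 / 2) {h : ℤ} (hh : h ≠ 0) : (1 + |(h : ℝ)|) / 4 ≤ |α + h| := by
  have h1 : 1 ≤ |(h : ℝ)| := by
    have := Int.one_le_abs hh
    exact_mod_cast this
  have h2 : |(h : ℝ)| ≤ |α + h| + |α| := by
    have := abs_sub (α + h) α
    rwa [add_sub_cancel_left] at this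
  linarith

/-- `cc` is bounded by the majorant, with a gain -/
lemma cc_le (cc : ℝ → ℂ) (h1 : ∀ β, ‖cc β‖ ≤ 1) (h2 : ∀ β, 2 ≤ |β| → ‖cc β‖ ≤ 1 / |β| ^ 2)
    {α : ℝ} (hα : |α| ≤ 1 / 2) (h : ℤ) : ‖cc (α + h)‖ ≤ Mj h ∧
      (2 ≤ |α + h| → ‖cc (α + h)‖ ≤ |α + h| ^ (-(1 / 2) : ℝ) * Mj h) := by
  have key : 2 ≤ |α + h| → ‖cc (α + h)‖ ≤ |α + h| ^ (-(1 / 2) : ℝ) * Mj h := by
    intro hb
    have hh : h ≠ 0 := by
      rintro rfl
      rw [Int.cast_zero, add_zero] at hb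
      linarith
    have hb0 : 0 < |α + h| := by linarith
    have h3 := abs_ge hα hh
    have h4 : |α + h| ^ (-(3 / 2) : ℝ) ≤ 8 * (1 + |(h : ℝ)|) ^ (-(3 / 2) : ℝ) := by
      refine (Real.rpow_le_rpow_of_nonpos (by positivity) h3 (by norm_num)).trans (le_of_eq ?_)
      rw [Real.div_rpow (by positivity) (by norm_num)]
      have h5 : (4 : ℝ) ^ (-(3 / 2) : ℝ) = 1 / 8 := by
        rw [show (4 : ℝ) = 2 ^ (2 : ℝ) by norm_num, ← Real.rpow_mul (by norm_num)]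
        norm_num
      rw [h5]
      ring
    have h6 : 1 / |α + h| ^ 2 = |α + h| ^ (-(1 / 2) : ℝ) * |α + h| ^ (-(3 / 2) : ℝ) := by
      rw [← Real.rpow_add hb0, one_div, ← Real.rpow_natCast, ← Real.rpow_neg hb0.le]
      norm_num
    refine (h2 _ hb).trans ?_
    rw [h6]
    exact mul_le_mul_of_nonneg_left (h4.trans (Mj_lb h)) (Real.rpow_nonneg hb0.le _)
  refine ⟨?_, key⟩
  rcases le_or_gt 2 |α + h| with hb | hb
  · refine (key hb).trans ?_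
    have h3 : |α + h| ^ (-(1 / 2) : ℝ) ≤ 1 :=
      Real.rpow_le_one_of_one_le_of_nonpos (by linarith) (by norm_num)
    calc |α + h| ^ (-(1 / 2) : ℝ) * Mj h ≤ 1 * Mj h := mul_le_mul_of_nonneg_right h3 (Mj_nonneg h)
      _ = Mj h := one_mul _
  · refine (h1 _).trans (le_trans ?_ (Mj_lb h))
    have h3 : |(h : ℝ)| < 3 := by
      have := abs_sub (α + h) α
      rw [add_sub_cancel_left] at this
      linarith
    have h4 : |h| ≤ 2 := by
      have : |h| < 3 := by exact_mod_cast h3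
      omega
    have h5 : |(h : ℝ)| ≤ 2 := by exact_mod_cast h4
    have h6 : (4 : ℝ) ^ (-(3 / 2) : ℝ) ≤ (1 + |(h : ℝ)|) ^ (-(3 / 2) : ℝ) :=
      Real.rpow_le_rpow_of_nonpos (by positivity) (by linarith) (by norm_num)
    have h7 : (4 : ℝ) ^ (-(3 / 2) : ℝ) = 1 / 8 := by
      rw [show (4 : ℝ) = 2 ^ (2 : ℝ) by norm_num, ← Real.rpow_mul (by norm_num)]
      norm_num
    rw [h7] at h6
    linarith

lemma norm_e (x : ℝ) : ‖e x‖ = 1 := by
  unfold e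
  rw [show (2 * Real.pi * x * Complex.I : ℂ) = ((2 * Real.pi * x : ℝ) : ℂ) * Complex.I by push_cast; ring]
  exact Complex.norm_exp_ofReal_mul_I _

lemma ev_rpow (s K : ℝ) (hs : 0 < s) : ∀ᶠ X : ℕ in atTop, K < (X : ℝ) ^ s :=
  ((tendsto_rpow_atTop hs).comp tendsto_natCast_atTop_atTop).eventually (eventually_gt_atTop K)

/-- TPOINT: minor arcs for the integer parts -/
theorem tpoint (h1 : S_POINT) (h2 : S_FLOOR) : S_TPOINT := by
  intro d c b θ hd hc hDio C0 δ hδ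
  obtain ⟨σ₁, hσ₁, X1, hP⟩ := h1 d c b θ hd hc hDio C0 δ hδ
  obtain ⟨cc, hcc1, hcc2, hcc3⟩ := h2
  obtain ⟨K, hK⟩ : ∃ K : ℝ, K = ∑' h : ℤ, Mj h := ⟨_, rfl⟩
  have hK0 : 0 ≤ K := by
    rw [hK]
    exact tsum_nonneg Mj_nonneg
  obtain ⟨X0, hX0⟩ := eventually_atTop.1 (((ev_rpow (σ₁ / 4) (K * (C0 + 1)) (by positivity)).and
    (ev_rpow σ₁ 2 hσ₁)).and ((eventually_ge_atTop 1).and (eventually_ge_atTop X1)))
  refine ⟨σ₁ / 4, by positivity, X0, ?_⟩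
  intro X A L hX hAL α hα1 hα2
  obtain ⟨⟨e1, e2⟩, e3, e4⟩ := hX0 X hX
  have hX1 : (1 : ℝ) ≤ X := by exact_mod_cast e3
  have hXp : (0 : ℝ) < X := by linarith
  obtain ⟨S, hS⟩ : ∃ S : ℝ → ℂ, S = fun β => ∑ n ∈ range L, e (β * PP d c b θ ((A + n : ℕ) : ℝ)) :=
    ⟨_, rfl⟩
  have hsum : HasSum (fun h : ℤ => cc (α + h) * S (α + h))
      (∑ n ∈ range L, ((Real.sin (Real.pi * PP d c b θ ((A + n : ℕ) : ℝ)) ^ 2 : ℝ) : ℂ) *
        e (α * (⌊PP d c b θ ((A + n : ℕ) : ℝ)⌋ : ℤ))) := by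
    have := hasSum_sum (s := range L) (fun n _ => hcc3 α (PP d c b θ ((A + n : ℕ) : ℝ)))
    simpa only [hS, Finset.mul_sum] using this
  have hSL : ∀ β, ‖S β‖ ≤ C0 * X := by
    intro β
    rw [hS]
    refine (norm_sum_le _ _).trans ?_
    simp only [norm_e, Finset.sum_const, Finset.card_range, nsmul_eq_mul, mul_one]
    have : L ≤ C0 * X := by omega
    exact_mod_cast this
  obtain ⟨Y, hY⟩ : ∃ Y : ℝ, Y = (C0 + 1) * (X : ℝ) ^ (1 - σ₁ / 2) := ⟨_, rfl⟩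
  have hC0 : (0 : ℝ) ≤ C0 := Nat.cast_nonneg _
  have hY0 : 0 ≤ Y := by
    rw [hY]
    positivity
  have hbd : ∀ h : ℤ, ‖cc (α + h) * S (α + h)‖ ≤ Y * Mj h := by
    intro h
    rw [norm_mul]
    obtain ⟨f1, f2⟩ := cc_le cc hcc1 hcc2 hα2 h
    rcases le_or_gt |α + h| ((X : ℝ) ^ σ₁) with hb | hb
    · have f3 : (X : ℝ) ^ (-((d : ℝ) + 1) + δ) ≤ |α + h| := by
        rcases eq_or_ne h 0 with rfl | hh
        · rwa [Int.cast_zero, add_zero]
        · have := abs_ge hα2 hh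
          have h1 : 1 ≤ |(h : ℝ)| := by
            have := Int.one_le_abs hh
            exact_mod_cast this
          linarith
      have f4 : ‖S (α + h)‖ ≤ (X : ℝ) ^ (1 - σ₁) := by
        rw [hS]
        exact hP X A L e4 hAL (α + h) f3 hb
      have f5 : (X : ℝ) ^ (1 - σ₁) ≤ Y := by
        rw [hY]
        have f6 : (X : ℝ) ^ (1 - σ₁) ≤ (X : ℝ) ^ (1 - σ₁ / 2) :=
          Real.rpow_le_rpow_of_exponent_le hX1 (by linarith)
        have f7 : 0 ≤ C0 * (X : ℝ) ^ (1 - σ₁ / 2) := by positivity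
        linarith
      rw [mul_comm Y]
      exact mul_le_mul f1 (f4.trans f5) (norm_nonneg _) (Mj_nonneg h)
    · have f3 : |α + h| ^ (-(1 / 2) : ℝ) ≤ (X : ℝ) ^ (-(σ₁ / 2)) := by
        have f4 : |α + h| ^ (-(1 / 2) : ℝ) ≤ ((X : ℝ) ^ σ₁) ^ (-(1 / 2) : ℝ) :=
          Real.rpow_le_rpow_of_nonpos (by positivity) hb.le (by norm_num)
        rw [← Real.rpow_mul hXp.le] at f4
        rwa [show σ₁ * (-(1 / 2)) = -(σ₁ / 2) by ring] at f4
      have f5 : ‖cc (α + h)‖ ≤ (X : ℝ) ^ (-(σ₁ / 2)) * Mj h :=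
        (f2 (by linarith)).trans (mul_le_mul_of_nonneg_right f3 (Mj_nonneg h))
      have f6 : (X : ℝ) ^ (1 - σ₁ / 2) = (X : ℝ) ^ (-(σ₁ / 2)) * X := by
        nth_rewrite 3 [← Real.rpow_one (X : ℝ)]
        rw [← Real.rpow_add hXp]
        congr 1
        ring
      have f7 : (X : ℝ) ^ (-(σ₁ / 2)) * Mj h * (C0 * X) ≤ Y * Mj h := by
        rw [hY, f6]
        have : 0 ≤ (X : ℝ) ^ (-(σ₁ / 2)) * X * Mj h :=
          mul_nonneg (by positivity) (Mj_nonneg h)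
        nlinarith
      refine le_trans ?_ f7
      exact mul_le_mul f5 (hSL _) (norm_nonneg _)
        (mul_nonneg (by positivity) (Mj_nonneg h))
  have htot := tsum_of_norm_bounded ((summable_Mj.mul_left Y).hasSum) hbd
  rw [hsum.tsum_eq, tsum_mul_left, ← hK] at htot
  refine htot.trans ?_
  have g1 : (X : ℝ) ^ (1 - σ₁ / 4) = (X : ℝ) ^ (1 - σ₁ / 2) * (X : ℝ) ^ (σ₁ / 4) := by
    rw [← Real.rpow_add hXp]
    congr 1
    ring
  rw [g1, hY]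
  have g2 : 0 ≤ (X : ℝ) ^ (1 - σ₁ / 2) := by positivity
  nlinarith

end Pool.Agent.N868.MWT
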