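import Mathlib
import Pool.Agent.N604.MW.Stm2
import Pool.Agent.N868.MW_Point
import Pool.Agent.N868.MW_TPoint

/-!
# Project PW, PPOINT: pointwise bound over primes for a diophantine polynomial
-/

set_option autoImplicit false

open Finset Filter

namespace Pool.Agent.N868.PWP

open Pool.Agent.N604.MW
open Pool.Agent.N868.MWP (cf cf_succ cf_top sum_cf ev_rpow)
open Pool.Agent.N868.MWT (norm_e)
open ArithmeticFunction (vonMangoldt)

lemma lam_nonneg (n : ℕ) : 0 ≤ lam n := by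
  unfold lam
  split_ifs with h
  · exact Real.log_nonneg (by exact_mod_cast h.one_lt.le)
  · exact le_rfl

lemma lam_le (n : ℕ) : lam n ≤ vonMangoldt n := by
  unfold lam
  split_ifs with h
  · rw [ArithmeticFunction.vonMangoldt_apply_prime h]
  · exact ArithmeticFunction.vonMangoldt_nonneg

lemma sum_diff (N : ℕ) : ∑ n ∈ Icc 0 N, (vonMangoldt n - lam n) =
    Chebyshev.psi N - Chebyshev.theta N := by
  rw [Chebyshev.psi_eq_sum_Icc, Chebyshev.theta_eq_sum_Icc, Finset.sum_filter,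
    Finset.sum_sub_distrib, Nat.floor_natCast]
  rfl

lemma shift_le {f : ℕ → ℝ} (hf : ∀ n, 0 ≤ f n) {A L N : ℕ} (h : A + L ≤ N) :
    ∑ n ∈ range L, f (A + n) ≤ ∑ n ∈ Icc 0 N, f n := by
  have h1 := Finset.sum_Ico_eq_sum_range f A (A + L)
  rw [Nat.add_sub_cancel_left] at h1
  rw [← h1]
  refine Finset.sum_le_sum_of_subset_of_nonneg ?_ (fun n _ _ => hf n)
  intro n hn
  rw [mem_Ico] at hn
  rw [mem_Icc]
  omega

lemma sum_lam_le {A L N : ℕ} (h : A + L ≤ N) :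
    ∑ n ∈ range L, lam (A + n) ≤ (Real.log 4 + 4) * N := by
  refine (shift_le lam_nonneg h).trans ?_
  refine (Finset.sum_le_sum fun n _ => lam_le n).trans ?_
  have := Chebyshev.psi_le_const_mul_self (x := (N : ℝ)) (Nat.cast_nonneg N)
  rwa [Chebyshev.psi_eq_sum_Icc, Nat.floor_natCast] at this

lemma norm_diff_le {K : ℝ} (hK : ∀ x, Chebyshev.psi x - Chebyshev.theta x ≤ K * Real.sqrt x)
    {A L N : ℕ} (h : A + L ≤ N) (z : ℕ → ℂ) (hz : ∀ n, ‖z n‖ = 1) :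
    ‖∑ n ∈ range L, ((vonMangoldt (A + n) : ℝ) : ℂ) * z n -
      ∑ n ∈ range L, ((lam (A + n) : ℝ) : ℂ) * z n‖ ≤ K * Real.sqrt N := by
  rw [← Finset.sum_sub_distrib]
  refine (norm_sum_le _ _).trans ?_
  have h1 : ∀ n ∈ range L, ‖((vonMangoldt (A + n) : ℝ) : ℂ) * z n - ((lam (A + n) : ℝ) : ℂ) * z n‖ =
      vonMangoldt (A + n) - lam (A + n) := by
    intro n _
    rw [← sub_mul, norm_mul, hz, mul_one, ← Complex.ofReal_sub, Complex.norm_real,
      Real.norm_of_nonneg (sub_nonneg.2 (lam_le _))]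
  rw [Finset.sum_congr rfl h1]
  refine (shift_le (f := fun n => vonMangoldt n - lam n) (fun n => sub_nonneg.2 (lam_le n)) h).trans ?_
  rw [sum_diff]
  exact hK N

/-- PPOINT: pointwise bound over primes for a diophantine polynomial -/
theorem ppoint (h : S_PWEYL) : S_PPOINT := by
  intro d c b θ hd hc hDio C0 δ hδ
  obtain ⟨κ, hκ, hDio⟩ := hDio
  obtain ⟨C, m, hC⟩ := h (d + 1) C0 (by omega)
  obtain ⟨Kψ, hKψ⟩ := Chebyshev.psi_sub_theta_le_mul_sqrt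
  obtain ⟨δ', hδ'⟩ : ∃ δ' : ℝ, δ' = min δ 1 := ⟨_, rfl⟩
  have hδ'0 : 0 < δ' := by
    rw [hδ']
    positivity
  have hδ'1 : δ' ≤ 1 := hδ' ▸ min_le_right _ _
  have hδ'δ : δ' ≤ δ := hδ' ▸ min_le_left _ _
  obtain ⟨σ, hσ⟩ : ∃ σ : ℝ, σ = δ' / (4 * m + 4) := ⟨_, rfl⟩
  have hm0 : (0 : ℝ) ≤ m := Nat.cast_nonneg m
  have hσ0 : 0 < σ := by
    rw [hσ]
    positivity
  have hσm : σ * (4 * m + 4) = δ' := by
    rw [hσ]
    field_simp
  have hσ4 : σ ≤ 1 / 4 := by nlinarith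
  have hs1 : 0 < δ - m * σ := by nlinarith
  have hs2 : 0 < 1 - (3 * m + 2) * σ := by nlinarith
  let jd : Fin d := ⟨d - 1, by omega⟩
  have hjd : (jd : ℕ) + 1 = d := by
    show d - 1 + 1 = d
    omega
  obtain ⟨K, hK⟩ : ∃ K : ℝ, K = (c + 1) ^ 2 * C ^ 2 * ((|θ jd| + c) * C) := ⟨_, rfl⟩
  have hev_log : ∀ᶠ X : ℕ in atTop, 1 + Real.log X ≤ (X : ℝ) ^ σ := by
    have h1 := (isLittleO_log_rpow_atTop hσ0).bound (show (0 : ℝ) < 1 / 2 by norm_num)
    have h2 := tendsto_natCast_atTop_atTop (R := ℝ) |>.eventually h1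
    filter_upwards [h2, ev_rpow σ 2 hσ0, eventually_ge_atTop 1] with X h2 h3 h4
    have h5 : (1 : ℝ) ≤ X := by exact_mod_cast h4
    rw [Real.norm_of_nonneg (Real.log_nonneg h5), Real.norm_of_nonneg (by positivity)] at h2
    linarith
  have hev_diff : ∀ᶠ X : ℕ in atTop, Kψ * Real.sqrt ((C0 * X : ℕ) : ℝ) ≤
      (X : ℝ) ^ (1 - σ / 2) / 2 := by
    have h1 := ev_rpow (1 / 4) (2 * (|Kψ| * Real.sqrt C0)) (by norm_num)
    filter_upwards [h1, eventually_ge_atTop 1] with X h1 h4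
    have h5 : (1 : ℝ) ≤ X := by exact_mod_cast h4
    have h6 : (0 : ℝ) < X := by linarith
    have h7 : Real.sqrt ((C0 * X : ℕ) : ℝ) = Real.sqrt C0 * (X : ℝ) ^ (1 / 2 : ℝ) := by
      rw [Nat.cast_mul, Real.sqrt_mul (Nat.cast_nonneg _), Real.sqrt_eq_rpow (X : ℝ)]
    have h8 : (X : ℝ) ^ (1 / 4 : ℝ) * (X : ℝ) ^ (1 / 2 : ℝ) ≤ (X : ℝ) ^ (1 - σ / 2) := by
      rw [← Real.rpow_add h6]
      exact Real.rpow_le_rpow_of_exponent_le h5 (by linarith)
    have h9 : Kψ ≤ |Kψ| := le_abs_self _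
    have h10 : 0 ≤ Real.sqrt C0 * (X : ℝ) ^ (1 / 2 : ℝ) := by positivity
    have h11 : 0 ≤ (X : ℝ) ^ (1 / 2 : ℝ) := by positivity
    rw [h7]
    nlinarith
  obtain ⟨X0, hX0⟩ := eventually_atTop.1 ((((ev_rpow _ (C / c) hs1).and (ev_rpow _ (K / κ) hs2)).and
    (hev_log.and hev_diff)).and ((eventually_ge_atTop 1).and (ev_rpow (σ / 2) 2 (by positivity))))
  refine ⟨σ / 2, by positivity, X0, ?_⟩
  intro X A L hX hAL β hβ1 hβ2'
  obtain ⟨⟨⟨e1, e2⟩, e6, e7⟩, e3, e8⟩ := hX0 X hX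
  have hX1 : (1 : ℝ) ≤ X := by exact_mod_cast e3
  have hXp : (0 : ℝ) < X := by linarith
  have hβ2 : |β| ≤ (X : ℝ) ^ σ :=
    hβ2'.trans (Real.rpow_le_rpow_of_exponent_le hX1 (by linarith))
  by_contra hcon
  push Not at hcon
  obtain ⟨u, hu⟩ : ∃ u : ℝ, u = (X : ℝ) ^ σ := ⟨_, rfl⟩
  have hu1 : 1 ≤ u := hu ▸ Real.one_le_rpow hX1 hσ0.le
  have hbig : (X : ℝ) ≤ u * ‖∑ n ∈ range L, ((vonMangoldt (A + n) : ℝ) : ℂ) *
      e (β * PP d c b θ ((A + n : ℕ) : ℝ))‖ := by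
    have f1 := norm_diff_le hKψ hAL (fun n => e (β * PP d c b θ ((A + n : ℕ) : ℝ)))
      (fun n => norm_e _)
    have f2 := norm_sub_norm_le (∑ n ∈ range L, ((lam (A + n) : ℝ) : ℂ) *
      e (β * PP d c b θ ((A + n : ℕ) : ℝ))) (∑ n ∈ range L, ((vonMangoldt (A + n) : ℝ) : ℂ) *
      e (β * PP d c b θ ((A + n : ℕ) : ℝ)))
    rw [norm_sub_rev] at f2
    have f3 : (X : ℝ) ^ (1 - σ / 2) / 2 ≤ ‖∑ n ∈ range L, ((vonMangoldt (A + n) : ℝ) : ℂ) *
      e (β * PP d c b θ ((A + n : ℕ) : ℝ))‖ := by linarith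
    have f4 : (X : ℝ) = (X : ℝ) ^ (σ / 2) * (X : ℝ) ^ (1 - σ / 2) := by
      rw [← Real.rpow_add hXp, add_sub_cancel, Real.rpow_one]
    have f5 : u = (X : ℝ) ^ (σ / 2) * (X : ℝ) ^ (σ / 2) := by
      rw [hu, ← Real.rpow_add hXp, add_halves]
    have f6 : 0 < (X : ℝ) ^ (1 - σ / 2) := by positivity
    have f7 : 0 < (X : ℝ) ^ (σ / 2) := by positivity
    calc (X : ℝ) = (X : ℝ) ^ (σ / 2) * (X : ℝ) ^ (1 - σ / 2) := f4
      _ ≤ ((X : ℝ) ^ (σ / 2) * (X : ℝ) ^ (σ / 2)) * ((X : ℝ) ^ (1 - σ / 2) / 2) := by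
          have : (X : ℝ) ^ (σ / 2) * (X : ℝ) ^ (1 - σ / 2) * 2 ≤
              (X : ℝ) ^ (σ / 2) * (X : ℝ) ^ (1 - σ / 2) * (X : ℝ) ^ (σ / 2) :=
            mul_le_mul_of_nonneg_left e8.le (by positivity)
          nlinarith
      _ = u * ((X : ℝ) ^ (1 - σ / 2) / 2) := by rw [f5]
      _ ≤ _ := mul_le_mul_of_nonneg_left f3 (by linarith)
  obtain ⟨q, hq1, hq, ⟨a, ha⟩, b', hb'⟩ := hC (fun j => β * cf d c b θ j) X A L u e3 hAL
    (by rw [hu]; exact e6) (by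
    have e5 : ∀ n : ℕ, ∑ j ∈ range (d + 1 + 1), β * cf d c b θ j * ((A + n : ℕ) : ℝ) ^ j =
      β * PP d c b θ ((A + n : ℕ) : ℝ) := fun n => sum_cf d c b β θ _
    simp only [e5]
    exact hbig)
  simp only [cf_top, add_tsub_cancel_right] at ha hb'
  have hcd : cf d c b θ d = θ jd := by
    have := cf_succ d c b θ jd
    rwa [hjd] at this
  rw [hcd] at hb'
  obtain ⟨U, hU⟩ : ∃ U : ℝ, U = u ^ m := ⟨_, rfl⟩
  have hU1 : 1 ≤ U := hU ▸ one_le_pow₀ hu1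
  have hUX : U = (X : ℝ) ^ (m * σ) := by
    rw [hU, hu, ← Real.rpow_natCast, ← Real.rpow_mul hXp.le, mul_comm]
  rw [← hU] at hq ha hb'
  have hC0 : (0 : ℝ) ≤ C := Nat.cast_nonneg C
  have hq1' : (1 : ℝ) ≤ q := by exact_mod_cast hq1
  have hXd : (X : ℝ) ^ (d + 1) = (X : ℝ) ^ ((d : ℝ) + 1) := by
    rw [← Real.rpow_natCast]
    push_cast
    rfl
  by_cases ha0 : a = 0
  · rw [ha0, Int.cast_zero, sub_zero] at ha
    have f1 : |β| * c ≤ C * U / (X : ℝ) ^ (d + 1) := by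
      refine le_trans ?_ ha
      rw [abs_mul, abs_mul, abs_of_pos hc, abs_of_nonneg (by linarith : (0 : ℝ) ≤ q)]
      have : 0 ≤ |β| * c := by positivity
      nlinarith
    have f2 : (X : ℝ) ^ (δ - m * σ) ≤ C / c := by
      rw [le_div_iff₀ hc]
      have f3 : (X : ℝ) ^ (-((d : ℝ) + 1) + δ) * c ≤ C * U / (X : ℝ) ^ (d + 1) :=
        (mul_le_mul_of_nonneg_right hβ1 hc.le).trans f1
      rw [le_div_iff₀ (by positivity), hXd] at f3
      have f4 : (X : ℝ) ^ (-((d : ℝ) + 1) + δ) * c * (X : ℝ) ^ ((d : ℝ) + 1) =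
          (X : ℝ) ^ (δ - m * σ) * c * U := by
        rw [hUX]
        have f5 : (X : ℝ) ^ (-((d : ℝ) + 1) + δ) * (X : ℝ) ^ ((d : ℝ) + 1) =
            (X : ℝ) ^ (δ - m * σ) * (X : ℝ) ^ (m * σ) := by
          rw [← Real.rpow_add hXp, ← Real.rpow_add hXp]
          congr 1
          ring
        linear_combination c * f5
      rw [f4] at f3
      exact le_of_mul_le_mul_right f3 (by linarith)
    linarith
  · have g1 := hDio jd hjd a b' ha0
    have ha2 : 1 ≤ |(a : ℝ)| := by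
      have := Int.one_le_abs ha0
      exact_mod_cast this
    have hXσ : |β| ≤ u := by rw [hu]; exact hβ2
    have hXd1 : 1 ≤ (X : ℝ) ^ (d + 1) := one_le_pow₀ hX1
    have g2 : |(a : ℝ)| ≤ (c + 1) * C * U * u := by
      have g3 : |(a : ℝ)| ≤ |q * (β * c)| + |q * (β * c) - a| := by
        have := abs_sub (q * (β * c)) (q * (β * c) - a)
        rwa [sub_sub_cancel] at this
      have g4 : |q * (β * c)| ≤ C * U * (u * c) := by
        rw [abs_mul, abs_mul, abs_of_pos hc, abs_of_nonneg (by linarith : (0 : ℝ) ≤ q)]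
        exact mul_le_mul hq (mul_le_mul_of_nonneg_right hXσ hc.le) (by positivity) (by positivity)
      have g5 : |q * (β * c) - a| ≤ C * U := by
        refine ha.trans ?_
        exact div_le_self (by positivity) hXd1
      have g6 : C * U ≤ C * U * u := le_mul_of_one_le_right (by positivity) hu1
      calc |(a : ℝ)| ≤ C * U * (u * c) + C * U * u := by linarith
        _ = (c + 1) * C * U * u := by ring
    have g3 : |a * θ jd - b' * c| ≤ (|θ jd| + c) * (C * U / (X : ℝ) ^ d) := by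
      have h1 : a * θ jd - b' * c = c * (q * (β * θ jd) - b') - θ jd * (q * (β * c) - a) := by ring
      rw [h1]
      refine (abs_sub _ _).trans ?_
      rw [abs_mul, abs_mul, abs_of_pos hc]
      have h2 : C * U / (X : ℝ) ^ (d + 1) ≤ C * U / (X : ℝ) ^ d :=
        div_le_div_of_nonneg_left (by positivity) (by positivity)
          (pow_le_pow_right₀ hX1 (by omega))
      have h3 := mul_le_mul_of_nonneg_left hb' hc.le
      have h4 := mul_le_mul_of_nonneg_left (ha.trans h2) (abs_nonneg (θ jd))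
      linarith
    have g4 : κ ≤ (a : ℝ) ^ 2 * ((|θ jd| + c) * (C * U / (X : ℝ) ^ d)) := by
      have h1 := g1.trans g3
      have h2 : 0 < (a : ℝ) ^ 2 := by
        rw [← sq_abs]
        positivity
      rw [div_le_iff₀ h2] at h1
      linarith
    have g5 : (a : ℝ) ^ 2 ≤ ((c + 1) * C * U * u) ^ 2 := by
      rw [← sq_abs]
      exact pow_le_pow_left₀ (abs_nonneg _) g2 2
    have g6 : κ * (X : ℝ) ^ d ≤ K * (U ^ 3 * u ^ 2) := by
      have h1 : 0 ≤ (|θ jd| + c) * (C * U / (X : ℝ) ^ d) := by positivity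
      have h2 := g4.trans (mul_le_mul_of_nonneg_right g5 h1)
      have h3 : ((c + 1) * C * U * u) ^ 2 * ((|θ jd| + c) * (C * U / (X : ℝ) ^ d)) =
          K * (U ^ 3 * u ^ 2) / (X : ℝ) ^ d := by
        rw [hK]
        ring
      rw [h3, le_div_iff₀ (by positivity)] at h2
      exact h2
    have g7 : U ^ 3 * u ^ 2 = (X : ℝ) ^ ((3 * m + 2) * σ) := by
      rw [hUX, hu, ← Real.rpow_natCast, ← Real.rpow_natCast, ← Real.rpow_mul hXp.le,
        ← Real.rpow_mul hXp.le, ← Real.rpow_add hXp]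
      congr 1
      push_cast
      ring
    have g8 : (X : ℝ) ≤ (X : ℝ) ^ d := le_self_pow₀ hX1 (by omega)
    have g9 : (X : ℝ) ^ (1 - (3 * m + 2) * σ) ≤ K / κ := by
      rw [le_div_iff₀ hκ]
      have h1 : (X : ℝ) = (X : ℝ) ^ (1 - (3 * m + 2) * σ) * (U ^ 3 * u ^ 2) := by
        rw [g7, ← Real.rpow_add hXp, sub_add_cancel, Real.rpow_one]
      have h2 : κ * (X : ℝ) ≤ K * (U ^ 3 * u ^ 2) :=
        (mul_le_mul_of_nonneg_left g8 hκ.le).trans g6
      rw [h1] at h2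
      have h3 : 0 < U ^ 3 * u ^ 2 := by positivity
      have h4 : κ * (((X : ℝ) ^ (1 - (3 * m + 2) * σ)) * (U ^ 3 * u ^ 2)) =
        ((X : ℝ) ^ (1 - (3 * m + 2) * σ) * κ) * (U ^ 3 * u ^ 2) := by ring
      rw [h4] at h2
      exact le_of_mul_le_mul_right h2 h3
    linarith

end Pool.Agent.N868.PWP
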