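import Mathlib
import Pool.Agent.N604.MW.Stm2
import Pool.Agent.N868.PW_PPoint

/-!
# Project PW, PTPOINT: minor arcs for the integer parts at primes
-/

set_option autoImplicit false

open Finset Filter

namespace Pool.Agent.N868.PWT

open Pool.Agent.N604.MW
open Pool.Agent.N868.MWT
open Pool.Agent.N868.PWP (lam_nonneg sum_lam_le)

/-- PTPOINT: minor arcs for the integer parts at primes -/
theorem ptpoint (h1 : S_PPOINT) (h2 : S_FLOOR) : S_PTPOINT := by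
  intro d c b θ hd hc hDio C0 δ hδ
  obtain ⟨σ₁, hσ₁, X1, hP⟩ := h1 d c b θ hd hc hDio C0 δ hδ
  obtain ⟨cc, hcc1, hcc2, hcc3⟩ := h2
  obtain ⟨K, hK⟩ : ∃ K : ℝ, K = ∑' h : ℤ, Mj h := ⟨_, rfl⟩
  obtain ⟨D0, hD0⟩ : ∃ D : ℝ, D = (Real.log 4 + 4) * C0 := ⟨_, rfl⟩
  have hl4 : 0 ≤ Real.log 4 := Real.log_nonneg (by norm_num)
  have hC0 : (0 : ℝ) ≤ D0 := by
    rw [hD0]
    positivity
  have hK0 : 0 ≤ K := by
    rw [hK]
    exact tsum_nonneg Mj_nonneg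
  obtain ⟨X0, hX0⟩ := eventually_atTop.1 (((ev_rpow (σ₁ / 4) (K * (D0 + 1)) (by positivity)).and
    (ev_rpow σ₁ 2 hσ₁)).and ((eventually_ge_atTop 1).and (eventually_ge_atTop X1)))
  refine ⟨σ₁ / 4, by positivity, X0, ?_⟩
  intro X A L hX hAL α hα1 hα2
  obtain ⟨⟨e1, e2⟩, e3, e4⟩ := hX0 X hX
  have hX1 : (1 : ℝ) ≤ X := by exact_mod_cast e3
  have hXp : (0 : ℝ) < X := by linarith
  obtain ⟨S, hS⟩ : ∃ S : ℝ → ℂ, S = fun β => ∑ n ∈ range L, ((lam (A + n) : ℝ) : ℂ) *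
      e (β * PP d c b θ ((A + n : ℕ) : ℝ)) :=
    ⟨_, rfl⟩
  have hsum : HasSum (fun h : ℤ => cc (α + h) * S (α + h))
      (∑ n ∈ range L, ((lam (A + n) * Real.sin (Real.pi * PP d c b θ ((A + n : ℕ) : ℝ)) ^ 2 : ℝ) : ℂ) *
        e (α * (⌊PP d c b θ ((A + n : ℕ) : ℝ)⌋ : ℤ))) := by
    have h3 := hasSum_sum (s := range L) (fun n _ =>
      (hcc3 α (PP d c b θ ((A + n : ℕ) : ℝ))).mul_left ((lam (A + n) : ℝ) : ℂ))
    have h4 : (fun h : ℤ => cc (α + h) * S (α + h)) = fun h : ℤ => ∑ n ∈ range L,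
        ((lam (A + n) : ℝ) : ℂ) * (cc (α + h) * e ((α + h) * PP d c b θ ((A + n : ℕ) : ℝ))) := by
      funext h
      rw [hS, Finset.mul_sum]
      refine Finset.sum_congr rfl fun n _ => ?_
      ring
    have h5 : ∑ n ∈ range L, ((lam (A + n) *
        Real.sin (Real.pi * PP d c b θ ((A + n : ℕ) : ℝ)) ^ 2 : ℝ) : ℂ) *
        e (α * (⌊PP d c b θ ((A + n : ℕ) : ℝ)⌋ : ℤ)) = ∑ n ∈ range L, ((lam (A + n) : ℝ) : ℂ) *
        (((Real.sin (Real.pi * PP d c b θ ((A + n : ℕ) : ℝ)) ^ 2 : ℝ) : ℂ) *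
          e (α * (⌊PP d c b θ ((A + n : ℕ) : ℝ)⌋ : ℤ))) := by
      refine Finset.sum_congr rfl fun n _ => ?_
      rw [Complex.ofReal_mul, mul_assoc]
    rw [h4, h5]
    exact h3
  have hSL : ∀ β, ‖S β‖ ≤ D0 * X := by
    intro β
    rw [hS]
    refine (norm_sum_le _ _).trans ?_
    have h3 : ∀ n ∈ range L, ‖((lam (A + n) : ℝ) : ℂ) * e (β * PP d c b θ ((A + n : ℕ) : ℝ))‖ =
        lam (A + n) := by
      intro n _
      rw [norm_mul, norm_e, mul_one, Complex.norm_real, Real.norm_of_nonneg (lam_nonneg _)]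
    rw [Finset.sum_congr rfl h3]
    refine (sum_lam_le hAL).trans (le_of_eq ?_)
    rw [hD0]
    push_cast
    ring
  obtain ⟨Y, hY⟩ : ∃ Y : ℝ, Y = (D0 + 1) * (X : ℝ) ^ (1 - σ₁ / 2) := ⟨_, rfl⟩
  have hY0 : 0 ≤ Y := by
    rw [hY]
    positivity
  have hbd : ∀ h : ℤ, ‖cc (α + h) * S (α + h)‖ ≤ Y * Mj h := by
    intro h
    rw [norm_mul]
    obtain ⟨f1, f2⟩ := cc_le cc hcc1 hcc2 hα2 h
    rcases le_or_gt |α + h| ((X : ℝ) ^ σ₁) with hb | hb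
    · have f3 : (X : ℝ) ^ (-((d : ℝ) + 1) + δ) ≤ |α + h| := by
        rcases eq_or_ne h 0 with rfl | hh
        · rwa [Int.cast_zero, add_zero]
        · have := abs_ge hα2 hh
          have h1 : 1 ≤ |(h : ℝ)| := by
            have := Int.one_le_abs hh
            exact_mod_cast this
          linarith
      have f4 : ‖S (α + h)‖ ≤ (X : ℝ) ^ (1 - σ₁) := by
        rw [hS]
        exact hP X A L e4 hAL (α + h) f3 hb
      have f5 : (X : ℝ) ^ (1 - σ₁) ≤ Y := by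
        rw [hY]
        have f6 : (X : ℝ) ^ (1 - σ₁) ≤ (X : ℝ) ^ (1 - σ₁ / 2) :=
          Real.rpow_le_rpow_of_exponent_le hX1 (by linarith)
        have f7 : 0 ≤ D0 * (X : ℝ) ^ (1 - σ₁ / 2) := by positivity
        linarith
      rw [mul_comm Y]
      exact mul_le_mul f1 (f4.trans f5) (norm_nonneg _) (Mj_nonneg h)
    · have f3 : |α + h| ^ (-(1 / 2) : ℝ) ≤ (X : ℝ) ^ (-(σ₁ / 2)) := by
        have f4 : |α + h| ^ (-(1 / 2) : ℝ) ≤ ((X : ℝ) ^ σ₁) ^ (-(1 / 2) : ℝ) :=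
          Real.rpow_le_rpow_of_nonpos (by positivity) hb.le (by norm_num)
        rw [← Real.rpow_mul hXp.le] at f4
        rwa [show σ₁ * (-(1 / 2)) = -(σ₁ / 2) by ring] at f4
      have f5 : ‖cc (α + h)‖ ≤ (X : ℝ) ^ (-(σ₁ / 2)) * Mj h :=
        (f2 (by linarith)).trans (mul_le_mul_of_nonneg_right f3 (Mj_nonneg h))
      have f6 : (X : ℝ) ^ (1 - σ₁ / 2) = (X : ℝ) ^ (-(σ₁ / 2)) * X := by
        nth_rewrite 3 [← Real.rpow_one (X : ℝ)]
        rw [← Real.rpow_add hXp]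
        congr 1
        ring
      have f7 : (X : ℝ) ^ (-(σ₁ / 2)) * Mj h * (D0 * X) ≤ Y * Mj h := by
        rw [hY, f6]
        have : 0 ≤ (X : ℝ) ^ (-(σ₁ / 2)) * X * Mj h :=
          mul_nonneg (by positivity) (Mj_nonneg h)
        nlinarith
      refine le_trans ?_ f7
      exact mul_le_mul f5 (hSL _) (norm_nonneg _)
        (mul_nonneg (by positivity) (Mj_nonneg h))
  have htot := tsum_of_norm_bounded ((summable_Mj.mul_left Y).hasSum) hbd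
  rw [hsum.tsum_eq, tsum_mul_left, ← hK] at htot
  refine htot.trans ?_
  have g1 : (X : ℝ) ^ (1 - σ₁ / 4) = (X : ℝ) ^ (1 - σ₁ / 2) * (X : ℝ) ^ (σ₁ / 4) := by
    rw [← Real.rpow_add hXp]
    congr 1
    ring
  rw [g1, hY]
  have g2 : 0 ≤ (X : ℝ) ^ (1 - σ₁ / 2) := by positivity
  nlinarith

end Pool.Agent.N868.PWT
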