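import Mathlib
import Pool.Agent.N646.SF.Stm
import Pool.Agent.N833.BX_SK

/-!
# Project SF (helper646), part EQ: a set which is dense in all cells is equidistributed
-/

set_option autoImplicit false

namespace Pool.Agent.N868.SFEQ

open Finset
open Pool.Agent.N646.BX Pool.Agent.N646.SF

theorem main : Pool.Agent.N646.SF.S_EQ := by
  intro β ε ω hβ hε hω
  obtain ⟨K, hK⟩ := exists_nat_ge (1 / ε)
  obtain ⟨r, hr⟩ := exists_nat_ge (((K + 1 : ℕ) : ℝ) / ω)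
  refine ⟨r + 1, by omega, fun m l hm hl => ⟨(K + 1) * (m * l), ?_, ?_, fun X hX => ?_⟩⟩
  · exact Nat.mul_pos (by omega) (Nat.mul_pos hm hl)
  · rw [div_le_iff₀ hω] at hr
    have h1 : ((K + 1 : ℕ) : ℝ) ≤ ω * ((r + 1 : ℕ) : ℝ) := by
      push_cast at hr ⊢
      linarith
    have h2 : (0 : ℝ) ≤ ((m * l : ℕ) : ℝ) := Nat.cast_nonneg _
    calc (((K + 1) * (m * l) : ℕ) : ℝ) = ((K + 1 : ℕ) : ℝ) * ((m * l : ℕ) : ℝ) := by push_cast; ring
      _ ≤ (ω * ((r + 1 : ℕ) : ℝ)) * ((m * l : ℕ) : ℝ) := mul_le_mul_of_nonneg_right h1 h2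
      _ = ω * (m * (r + 1) * l : ℕ) := by push_cast; ring
  · refine Pool.Agent.N833.BX.equi_of_cell (β := β) hm hl (by omega) ?_ (fun a ha b hb => hX a ha b hb)
    rw [div_le_iff₀ hε] at hK
    push_cast
    nlinarith

end Pool.Agent.N868.SFEQ
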