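import Pool.Agent.N661.BR.Base

/-!
# BR/ID: infinitely divisible laws whose fourth moment is Gaussian
-/

set_option autoImplicit false

open MeasureTheory Filter Topology Complex ProbabilityTheory

namespace Pool.Agent.N868.BRID

open Pool.Agent.N661.BR

noncomputable section

/-- the fourth moment is finite -/
def H (τ : Measure ℝ) : Prop := Integrable (fun x : ℝ => x ^ 4) τ

theorem abs_pow_le (x : ℝ) {k : ℕ} (hk : k ≤ 4) : |x| ^ k ≤ 1 + x ^ 4 := by
  have h4 : x ^ 4 = |x| ^ 4 := by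
    rw [← abs_pow, abs_of_nonneg (by positivity)]
  rw [h4]
  rcases le_total |x| 1 with h | h
  · have h1 : |x| ^ k ≤ 1 := pow_le_one₀ (abs_nonneg x) h
    have h2 : 0 ≤ |x| ^ 4 := by positivity
    linarith
  · have h1 : |x| ^ k ≤ |x| ^ 4 := pow_le_pow_right₀ h hk
    linarith

theorem int_pow {τ : Measure ℝ} [IsProbabilityMeasure τ] (h : H τ) {k : ℕ} (hk : k ≤ 4) :
    Integrable (fun x : ℝ => x ^ k) τ := by
  refine Integrable.mono' ((integrable_const 1).add h)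
    (by fun_prop) (Filter.Eventually.of_forall fun x => ?_)
  rw [Real.norm_eq_abs, abs_pow]
  exact abs_pow_le x hk

theorem int_abs {τ : Measure ℝ} [IsProbabilityMeasure τ] (h : H τ) :
    Integrable (fun x : ℝ => |x| ^ 3) τ := by
  refine Integrable.mono' ((integrable_const 1).add h)
    (by fun_prop) (Filter.Eventually.of_forall fun x => ?_)
  rw [Real.norm_eq_abs, abs_pow, abs_abs]
  exact abs_pow_le x (by norm_num)

theorem H_conv {σ τ : Measure ℝ} [IsProbabilityMeasure σ] [IsProbabilityMeasure τ] (hσ : H σ)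
    (hτ : H τ) : H (σ ∗ τ) := by
  unfold H Measure.conv
  rw [integrable_map_measure (by fun_prop) (by fun_prop)]
  have h1 : Integrable (fun p : ℝ × ℝ => 8 * (p.1 ^ 4 * 1) + 8 * (1 * p.2 ^ 4)) (σ.prod τ) :=
    ((hσ.mul_prod (integrable_const 1)).const_mul 8).add
      (((integrable_const 1).mul_prod hτ).const_mul 8)
  refine Integrable.mono' h1 (by fun_prop) (Filter.Eventually.of_forall fun p => ?_)
  show ‖(p.1 + p.2) ^ 4‖ ≤ 8 * (p.1 ^ 4 * 1) + 8 * (1 * p.2 ^ 4)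
  rw [Real.norm_of_nonneg (by positivity)]
  nlinarith [sq_nonneg (p.1 - p.2), sq_nonneg (p.1 + p.2), sq_nonneg (p.1 ^ 2 - p.2 ^ 2),
    sq_nonneg ((p.1 - p.2) ^ 2), mul_nonneg (sq_nonneg (p.1 - p.2)) (sq_nonneg (p.1 + p.2)),
    sq_nonneg (p.1 * p.2)]

theorem H_right {σ τ : Measure ℝ} [IsProbabilityMeasure σ] [IsProbabilityMeasure τ]
    (h : H (σ ∗ τ)) : H τ := by
  unfold H Measure.conv at h
  rw [integrable_map_measure (by fun_prop) (by fun_prop)] at h
  obtain ⟨x, hx⟩ := h.prod_right_ae.exists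
  have h1 : Integrable (fun y : ℝ => 8 * (x + y) ^ 4 + 8 * x ^ 4) τ :=
    (hx.const_mul 8).add (integrable_const _)
  refine Integrable.mono' h1 (by fun_prop) (Filter.Eventually.of_forall fun y => ?_)
  rw [Real.norm_of_nonneg (by positivity)]
  nlinarith [sq_nonneg ((x + y) + x), sq_nonneg ((x + y) - x), sq_nonneg ((x + y) ^ 2 - x ^ 2),
    sq_nonneg (((x + y) + x) ^ 2),
    mul_nonneg (sq_nonneg ((x + y) - x)) (sq_nonneg ((x + y) + x)), sq_nonneg ((x + y) * x)]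

/-- the moments of a convolution -/
theorem mom_conv {σ τ : Measure ℝ} [IsProbabilityMeasure σ] [IsProbabilityMeasure τ] (hσ : H σ)
    (hτ : H τ) {k : ℕ} (hk : k ≤ 4) : ∫ z, z ^ k ∂(σ ∗ τ) =
      ∑ i ∈ Finset.range (k + 1), (∫ x, x ^ i ∂σ) * (∫ y, y ^ (k - i) ∂τ) * (k.choose i : ℝ) := by
  unfold Measure.conv
  rw [integral_map (by fun_prop) (by fun_prop)]
  simp_rw [add_pow]
  rw [integral_finsetSum]
  · refine Finset.sum_congr rfl fun i _ => ?_
    rw [integral_mul_const, integral_prod_mul (fun x : ℝ => x ^ i) (fun y : ℝ => y ^ (k - i))]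
  · intro i hi
    rw [Finset.mem_range] at hi
    exact ((int_pow hσ (by omega)).mul_prod (int_pow hτ (by omega))).mul_const _

/-- the convolution powers -/
def cv (τ : Measure ℝ) : ℕ → Measure ℝ
  | 0 => Measure.dirac 0
  | k + 1 => cv τ k ∗ τ

instance cv_prob (τ : Measure ℝ) [IsProbabilityMeasure τ] (k : ℕ) :
    IsProbabilityMeasure (cv τ k) := by
  induction k with
  | zero => exact Measure.dirac.isProbabilityMeasure
  | succ k ih =>
    unfold cv
    infer_instance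

theorem cv_char (τ : Measure ℝ) [IsProbabilityMeasure τ] (k : ℕ) (t : ℝ) :
    charFun (cv τ k) t = charFun τ t ^ k := by
  induction k with
  | zero =>
    unfold cv
    simp
  | succ k ih =>
    unfold cv
    rw [charFun_conv, ih, pow_succ]

theorem cv_H {τ : Measure ℝ} [IsProbabilityMeasure τ] (h : H τ) (k : ℕ) : H (cv τ k) := by
  induction k with
  | zero =>
    unfold cv H
    exact integrable_dirac (by simp)
  | succ k ih =>
    unfold cv
    exact H_conv ih h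

theorem cv_mom {τ : Measure ℝ} [IsProbabilityMeasure τ] (h : H τ) (k : ℕ) :
    ∫ x, x ∂(cv τ k) = k * ∫ x, x ∂τ := by
  induction k with
  | zero =>
    unfold cv
    simp
  | succ k ih =>
    have h1 := mom_conv (cv_H h k) h (k := 1) (by norm_num)
    simp [Finset.sum_range_succ] at h1
    unfold cv
    rw [h1, ih]
    push_cast
    ring

theorem cv_mom2 {τ : Measure ℝ} [IsProbabilityMeasure τ] (h : H τ) (h0 : ∫ x, x ∂τ = 0) (k : ℕ) :
    ∫ x, x ^ 2 ∂(cv τ k) = k * ∫ x, x ^ 2 ∂τ := by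
  induction k with
  | zero =>
    unfold cv
    simp
  | succ k ih =>
    have h1 := mom_conv (cv_H h k) h (k := 2) (by norm_num)
    simp [Finset.sum_range_succ, h0] at h1
    unfold cv
    rw [h1, ih]
    push_cast
    ring

theorem cv_mom4 {τ : Measure ℝ} [IsProbabilityMeasure τ] (h : H τ) (h0 : ∫ x, x ∂τ = 0) (k : ℕ) :
    ∫ x, x ^ 4 ∂(cv τ k) = k * ∫ x, x ^ 4 ∂τ + 3 * k * (k - 1) * (∫ x, x ^ 2 ∂τ) ^ 2 := by
  induction k with
  | zero =>
    unfold cv
    simp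
  | succ k ih =>
    have h1 := mom_conv (cv_H h k) h (k := 4) (by norm_num)
    have h2 := cv_mom2 h h0 k
    have h3 := cv_mom h k
    rw [h0, mul_zero] at h3
    simp [Finset.sum_range_succ, h0, h3, h2, ih, Nat.choose] at h1
    unfold cv
    rw [h1]
    push_cast
    ring

/-- the second order Taylor expansion -/
theorem taylor (x : ℝ) :
    ‖Complex.exp ((x : ℂ) * I) - (1 + (x : ℂ) * I - (x : ℂ) ^ 2 / 2)‖ ≤ 4 * |x| ^ 3 := by
  rcases le_total |x| 1 with h | h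
  · have hn : ‖(x : ℂ) * I‖ = |x| := by
      rw [norm_mul, Complex.norm_I, mul_one, Complex.norm_real, Real.norm_eq_abs]
    have h1 := Complex.exp_bound (x := (x : ℂ) * I) (by rw [hn]; exact h) (n := 3) (by norm_num)
    have h2 : ∑ m ∈ Finset.range 3, ((x : ℂ) * I) ^ m / (m.factorial : ℂ) =
        1 + (x : ℂ) * I - (x : ℂ) ^ 2 / 2 := by
      simp [Finset.sum_range_succ, Nat.factorial, mul_pow]
      ring
    rw [h2, hn] at h1
    refine h1.trans ?_
    rw [mul_comm]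
    refine mul_le_mul_of_nonneg_right ?_ (by positivity)
    norm_num [Nat.factorial]
  · have h1 : ‖Complex.exp ((x : ℂ) * I)‖ = 1 := Complex.norm_exp_ofReal_mul_I x
    have h2 : ‖(1 : ℂ) + (x : ℂ) * I - (x : ℂ) ^ 2 / 2‖ ≤ 1 + |x| + |x| ^ 2 / 2 := by
      refine (norm_sub_le _ _).trans (add_le_add ((norm_add_le _ _).trans ?_) ?_)
      · rw [norm_one, norm_mul, Complex.norm_I, mul_one, Complex.norm_real, Real.norm_eq_abs]
      · rw [norm_div, norm_pow, Complex.norm_real, Real.norm_eq_abs]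
        norm_num
    refine (norm_sub_le _ _).trans ?_
    rw [h1]
    have e1 : (1 : ℝ) ≤ |x| ^ 3 := one_le_pow₀ h
    have e2 : |x| ≤ |x| ^ 3 := le_self_pow₀ h (by norm_num)
    have e3 : |x| ^ 2 ≤ |x| ^ 3 := pow_le_pow_right₀ h (by norm_num)
    linarith

/-- the characteristic function near `0` -/
theorem char_bound {τ : Measure ℝ} [IsProbabilityMeasure τ] (h : H τ) (h0 : ∫ x, x ∂τ = 0)
    (t : ℝ) : ‖charFun τ t - 1 + ((t ^ 2 / 2 * ∫ x, x ^ 2 ∂τ : ℝ) : ℂ)‖ ≤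
      4 * |t| ^ 3 * ∫ x, |x| ^ 3 ∂τ := by
  have i1 : Integrable (fun x : ℝ => x) τ := by
    have := int_pow h (k := 1) (by norm_num)
    simpa using this
  have i2 := int_pow h (k := 2) (by norm_num)
  have e1 : Integrable (fun x : ℝ => Complex.exp ((t : ℂ) * x * I)) τ := by
    refine Integrable.of_bound (by fun_prop) 1 (Filter.Eventually.of_forall fun x => ?_)
    have := Complex.norm_exp_ofReal_mul_I (t * x)
    push_cast at this
    rw [this]
  have e2 : Integrable (fun x : ℝ => ((t : ℂ) * I) * (x : ℂ)) τ := i1.ofReal.const_mul _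
  have e3 : Integrable (fun x : ℝ => ((t ^ 2 / 2 : ℝ) : ℂ) * ((x ^ 2 : ℝ) : ℂ)) τ :=
    i2.ofReal.const_mul _
  have e4 : charFun τ t - 1 + ((t ^ 2 / 2 * ∫ x, x ^ 2 ∂τ : ℝ) : ℂ) =
      ∫ x : ℝ, (Complex.exp (((t * x : ℝ) : ℂ) * I) - (1 + ((t * x : ℝ) : ℂ) * I -
        ((t * x : ℝ) : ℂ) ^ 2 / 2)) ∂τ := by
    have e5 : ∀ x : ℝ, Complex.exp (((t * x : ℝ) : ℂ) * I) - (1 + ((t * x : ℝ) : ℂ) * I -
        ((t * x : ℝ) : ℂ) ^ 2 / 2) = Complex.exp ((t : ℂ) * x * I) - 1 -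
          ((t : ℂ) * I) * (x : ℂ) + ((t ^ 2 / 2 : ℝ) : ℂ) * ((x ^ 2 : ℝ) : ℂ) := by
      intro x
      push_cast
      ring
    simp_rw [e5]
    have f1 : Integrable (fun x : ℝ => Complex.exp ((t : ℂ) * x * I) - 1) τ :=
      e1.sub (integrable_const 1)
    have f2 : Integrable (fun x : ℝ => Complex.exp ((t : ℂ) * x * I) - 1 -
        ((t : ℂ) * I) * (x : ℂ)) τ := f1.sub e2
    have g1 : ∫ x : ℝ, (x : ℂ) ∂τ = ((∫ x, x ∂τ : ℝ) : ℂ) := integral_ofReal
    have g2 : ∫ x : ℝ, ((x ^ 2 : ℝ) : ℂ) ∂τ = ((∫ x, x ^ 2 ∂τ : ℝ) : ℂ) := integral_ofReal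
    rw [integral_add f2 e3, integral_sub f1 e2, integral_sub e1 (integrable_const 1),
      integral_const_mul, integral_const_mul, g1, g2, h0, charFun_apply_real]
    push_cast
    simp
  rw [e4]
  refine (norm_integral_le_integral_norm _).trans ?_
  rw [← integral_const_mul]
  refine integral_mono_of_nonneg (Filter.Eventually.of_forall fun x => norm_nonneg _)
    ((int_abs h).const_mul _) (Filter.Eventually.of_forall fun x => ?_)
  refine (taylor (t * x)).trans (le_of_eq ?_)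
  rw [abs_mul, mul_pow]
  ring

theorem third_bound {τ : Measure ℝ} [IsProbabilityMeasure τ] (h : H τ) {δ : ℝ} (hδ : 0 < δ) :
    ∫ x, |x| ^ 3 ∂τ ≤ (δ * ∫ x, x ^ 2 ∂τ + δ⁻¹ * ∫ x, x ^ 4 ∂τ) / 2 := by
  have i2 := int_pow h (k := 2) (by norm_num)
  have e : (δ * ∫ x, x ^ 2 ∂τ + δ⁻¹ * ∫ x, x ^ 4 ∂τ) / 2 =
      ∫ x, (δ * x ^ 2 + δ⁻¹ * x ^ 4) / 2 ∂τ := by
    rw [integral_div, integral_add (i2.const_mul _) (h.const_mul _), integral_const_mul,
      integral_const_mul]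
  rw [e]
  refine integral_mono (int_abs h) (((i2.const_mul _).add (h.const_mul _)).div_const 2)
    fun x => ?_
  show |x| ^ 3 ≤ (δ * x ^ 2 + δ⁻¹ * x ^ 4) / 2
  have h2 : x ^ 2 = |x| ^ 2 := (sq_abs x).symm
  have h4 : x ^ 4 = |x| ^ 4 := by
    rw [← abs_pow, abs_of_nonneg (by positivity)]
  rw [h2, h4]
  have h5 : (δ * |x| ^ 2 + δ⁻¹ * |x| ^ 4) / 2 - |x| ^ 3 =
      δ⁻¹ * |x| ^ 2 * (|x| - δ) ^ 2 / 2 := by
    field_simp
    ring
  have h6 : 0 ≤ δ⁻¹ * |x| ^ 2 * (|x| - δ) ^ 2 / 2 := by positivity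
  linarith

theorem ID : S_ID := by
  intro ρ hρ v hL h1 h2 h4 hdiv
  have hH : H ρ := by
    have h5 : MemLp (id : ℝ → ℝ) ((4 : ℕ) : ENNReal) ρ := by exact_mod_cast hL
    have h6 := h5.integrable_norm_pow (by norm_num)
    refine h6.congr (Filter.Eventually.of_forall fun x => ?_)
    show ‖x‖ ^ 4 = x ^ 4
    rw [Real.norm_eq_abs, ← abs_pow, abs_of_nonneg (by positivity)]
  have hv : 0 ≤ v := by
    rw [← h2]
    exact integral_nonneg fun x => sq_nonneg x
  have hex : ∀ n : ℕ, ∃ τ : Measure ℝ, 1 ≤ n → (IsProbabilityMeasure τ ∧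
      ∀ t : ℝ, charFun ρ t = charFun τ t ^ n) := by
    intro n
    by_cases hn : 1 ≤ n
    · obtain ⟨τ, h5, h6⟩ := hdiv n hn
      exact ⟨τ, fun _ => ⟨h5, h6⟩⟩
    · exact ⟨ρ, fun h => absurd h hn⟩
  choose τ hτ using hex
  have key : ∀ (n : ℕ) (t : ℝ), 1 ≤ n →
      ‖(n : ℂ) * (charFun (τ n) t - 1) - ((-(v * t ^ 2 / 2) : ℝ) : ℂ)‖ ≤
        4 * |t| ^ 3 * ((v + 3 * v ^ 2) / 2) * (1 / Real.sqrt n) := by
    intro n t hn
    obtain ⟨hp, hc⟩ := hτ n hn
    have hn0 : (0 : ℝ) < n := by exact_mod_cast hn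
    have hcv : ρ = cv (τ n) n := by
      refine Measure.ext_of_charFun (funext fun t => ?_)
      rw [cv_char, hc t]
    have hHτ : H (τ n) := by
      obtain ⟨k, rfl⟩ : ∃ k, n = k + 1 := ⟨n - 1, by omega⟩
      rw [hcv] at hH
      unfold cv at hH
      exact H_right hH
    have m1 : ∫ x, x ∂(τ n) = 0 := by
      have := cv_mom hHτ n
      rw [← hcv, h1] at this
      exact (mul_eq_zero.1 this.symm).resolve_left hn0.ne'
    have m2 : ∫ x, x ^ 2 ∂(τ n) = v / n := by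
      have := cv_mom2 hHτ m1 n
      rw [← hcv, h2] at this
      rw [this]
      field_simp
    have m4 : ∫ x, x ^ 4 ∂(τ n) = 3 * v ^ 2 / n ^ 2 := by
      have := cv_mom4 hHτ m1 n
      rw [← hcv, h4, m2] at this
      have h5 : (n : ℝ) * ∫ x, x ^ 4 ∂(τ n) = 3 * v ^ 2 / n := by
        have h6 : (n : ℝ) * ∫ x, x ^ 4 ∂(τ n) =
            3 * v ^ 2 - 3 * n * (n - 1) * (v / n) ^ 2 := by linarith
        rw [h6]
        field_simp
        ring
      have h7 : ∫ x, x ^ 4 ∂(τ n) = ((n : ℝ) * ∫ x, x ^ 4 ∂(τ n)) / n := by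
        field_simp
      rw [h7, h5]
      field_simp
    have h5 := char_bound hHτ m1 t
    have hs : 0 < Real.sqrt n := Real.sqrt_pos.2 hn0
    have h6 := third_bound hHτ (δ := (Real.sqrt n)⁻¹) (by positivity)
    rw [m2, m4, inv_inv] at h6
    rw [m2] at h5
    have h7 : (n : ℂ) * (charFun (τ n) t - 1) - ((-(v * t ^ 2 / 2) : ℝ) : ℂ) =
        (n : ℂ) * (charFun (τ n) t - 1 + ((t ^ 2 / 2 * (v / n) : ℝ) : ℂ)) := by
      have : (n : ℂ) ≠ 0 := by exact_mod_cast hn0.ne'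
      push_cast
      field_simp
      ring
    rw [h7, norm_mul, Complex.norm_natCast]
    have h8 : (n : ℝ) * ∫ x, |x| ^ 3 ∂(τ n) ≤ (v + 3 * v ^ 2) / 2 * (1 / Real.sqrt n) := by
      have h9 : (n : ℝ) * (((Real.sqrt n)⁻¹ * (v / n) + Real.sqrt n * (3 * v ^ 2 / n ^ 2)) / 2) =
          (v + 3 * v ^ 2) / 2 * (1 / Real.sqrt n) := by
        have hsq : Real.sqrt n ^ 2 = n := Real.sq_sqrt hn0.le
        field_simp
        rw [hsq]
        ring
      rw [← h9]
      exact mul_le_mul_of_nonneg_left h6 hn0.le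
    calc (n : ℝ) * ‖charFun (τ n) t - 1 + ((t ^ 2 / 2 * (v / n) : ℝ) : ℂ)‖
        ≤ n * (4 * |t| ^ 3 * ∫ x, |x| ^ 3 ∂(τ n)) := mul_le_mul_of_nonneg_left h5 hn0.le
      _ = 4 * |t| ^ 3 * (n * ∫ x, |x| ^ 3 ∂(τ n)) := by ring
      _ ≤ 4 * |t| ^ 3 * ((v + 3 * v ^ 2) / 2 * (1 / Real.sqrt n)) :=
          mul_le_mul_of_nonneg_left h8 (by positivity)
      _ = _ := by ring
  have hchar : ∀ t : ℝ, charFun ρ t = Complex.exp ((-(v * t ^ 2 / 2) : ℝ) : ℂ) := by
    intro t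
    have hlim : Tendsto (fun n : ℕ => (n : ℂ) * (charFun (τ n) t - 1)) atTop
        (𝓝 ((-(v * t ^ 2 / 2) : ℝ) : ℂ)) := by
      rw [tendsto_iff_norm_sub_tendsto_zero]
      have h5 : Tendsto (fun n : ℕ => 4 * |t| ^ 3 * ((v + 3 * v ^ 2) / 2) * (1 / Real.sqrt n))
          atTop (𝓝 0) := by
        have h6 : Tendsto (fun n : ℕ => 1 / Real.sqrt (n : ℝ)) atTop (𝓝 0) := by
          have h7 : Tendsto (fun n : ℕ => Real.sqrt (n : ℝ)) atTop atTop :=
            Real.tendsto_sqrt_atTop.comp tendsto_natCast_atTop_atTop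
          exact tendsto_const_nhds.div_atTop h7
        have h7 := h6.const_mul (4 * |t| ^ 3 * ((v + 3 * v ^ 2) / 2))
        rwa [mul_zero] at h7
      refine squeeze_zero' (Filter.Eventually.of_forall fun n => norm_nonneg _) ?_ h5
      filter_upwards [eventually_ge_atTop 1] with n hn
      exact key n t hn
    have h5 := Complex.tendsto_one_add_pow_exp_of_tendsto hlim
    have h6 : Tendsto (fun n : ℕ => (1 + (charFun (τ n) t - 1)) ^ n) atTop
        (𝓝 (charFun ρ t)) := by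
      refine tendsto_const_nhds.congr' ?_
      filter_upwards [eventually_ge_atTop 1] with n hn
      rw [add_sub_cancel]
      exact (hτ n hn).2 t
    exact tendsto_nhds_unique h6 h5
  refine Measure.ext_of_charFun (funext fun t => ?_)
  rw [hchar t, charFun_gaussianReal]
  congr 1
  rw [Real.coe_toNNReal v hv]
  push_cast
  ring

end

end Pool.Agent.N868.BRID
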