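import Pool.Agent.N661.BR.Base

/-!
# BR/WIEN: a theorem of Wiener
-/

set_option autoImplicit false

open MeasureTheory Filter Topology Complex ProbabilityTheory
open scoped ComplexConjugate

namespace Pool.Agent.N868.BRWIEN

open Pool.Agent.N661.BR
open Pool.Agent.Y265.RW (sy rr)

noncomputable section

/-- the quotient of the squares of the symbols -/
def Q (p : ℝ × ℝ) : ℂ := Complex.exp (((-2 * (p.1 - p.2) : ℝ) : ℂ) * I)

theorem Q_norm (p : ℝ × ℝ) : ‖Q p‖ = 1 := Complex.norm_exp_ofReal_mul_I _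

theorem Q_ne (p : ℝ × ℝ) : Q p ≠ 0 := Complex.exp_ne_zero _

theorem Q_cont : Continuous Q := by
  unfold Q
  fun_prop

theorem Q_one {p : ℝ × ℝ} (h : Q p = 1) : Real.sin (p.1 - p.2) = 0 := by
  have h1 := congrArg Complex.re h
  unfold Q at h1
  rw [Complex.exp_ofReal_mul_I_re, Complex.one_re] at h1
  have h2 : Real.cos (-2 * (p.1 - p.2)) = 1 - 2 * Real.sin (p.1 - p.2) ^ 2 := by
    rw [show -2 * (p.1 - p.2) = -(2 * (p.1 - p.2)) by ring, Real.cos_neg, Real.cos_two_mul]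
    have := Real.sin_sq_add_cos_sq (p.1 - p.2)
    linarith
  rw [h2] at h1
  have h3 : Real.sin (p.1 - p.2) ^ 2 = 0 := by linarith
  exact pow_eq_zero_iff (two_ne_zero) |>.1 h3

theorem sy_sq (x : ℝ) : sy x ^ 2 = -Complex.exp (((-2 * x : ℝ) : ℂ) * I) := by
  unfold sy
  rw [mul_pow, I_sq, ← Complex.exp_nat_mul]
  push_cast
  rw [show (2 : ℂ) * (-(x : ℂ) * I) = -2 * (x : ℂ) * I by ring]
  ring

theorem Q_eq (p : ℝ × ℝ) : Q p = sy p.1 ^ 2 * conj (sy p.2 ^ 2) := by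
  rw [sy_sq, sy_sq, map_neg, ← Complex.exp_conj, map_mul, conj_I, conj_ofReal, neg_mul_neg,
    ← Complex.exp_add]
  unfold Q
  congr 1
  push_cast
  ring

theorem Q_zpow (p : ℝ × ℝ) (k : ℤ) :
    Q p ^ k = sy p.1 ^ (2 * k) * conj (sy p.2 ^ (2 * k)) := by
  rw [Q_eq, mul_zpow, ← map_zpow₀, ← zpow_natCast, ← zpow_natCast, ← zpow_mul, ← zpow_mul]
  norm_num

section
variable (ν : Measure ℝ) [IsProbabilityMeasure ν]

theorem int_Q (k : ℤ) : Integrable (fun p => Q p ^ k) (ν.prod ν) := by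
  refine Integrable.of_bound ?_ 1 (Filter.Eventually.of_forall fun p => ?_)
  · exact (Q_cont.zpow₀ k fun p => Or.inl (Q_ne p)).aestronglyMeasurable
  · rw [norm_zpow, Q_norm, one_zpow]

theorem a_eq (k : ℤ) : ((‖cf ν (2 * k)‖ ^ 2 : ℝ) : ℂ) = ∫ p, Q p ^ k ∂(ν.prod ν) := by
  simp_rw [Q_zpow]
  rw [integral_prod_mul (fun x => sy x ^ (2 * k)) (fun y => conj (sy y ^ (2 * k))),
    integral_conj, Complex.mul_conj, Complex.normSq_eq_norm_sq]
  rfl

/-- the means of the powers -/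
def S (N : ℕ) (q : ℂ) : ℂ := (1 / (N : ℂ)) * ∑ j ∈ Finset.range N, q ^ j

theorem S_le (N : ℕ) {q : ℂ} (hq : ‖q‖ = 1) : ‖S N q‖ ≤ 1 := by
  unfold S
  rw [norm_mul, norm_div, norm_one, Complex.norm_natCast]
  have h1 : ‖∑ j ∈ Finset.range N, q ^ j‖ ≤ N := by
    refine (norm_sum_le _ _).trans ?_
    simp [hq]
  rcases Nat.eq_zero_or_pos N with h | h
  · subst h
    simp
  · have hN : (0 : ℝ) < N := by exact_mod_cast h
    calc 1 / (N : ℝ) * ‖∑ j ∈ Finset.range N, q ^ j‖ ≤ 1 / (N : ℝ) * N :=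
          mul_le_mul_of_nonneg_left h1 (by positivity)
      _ = 1 := by field_simp

theorem S_tendsto {q : ℂ} (hq : ‖q‖ = 1) (h : q ≠ 1) :
    Tendsto (fun N => ‖S N q‖) atTop (𝓝 0) := by
  have h1 : ∀ N : ℕ, ‖S N q‖ ≤ (2 / ‖q - 1‖) * (1 / (N : ℝ)) := by
    intro N
    unfold S
    rw [norm_mul, norm_div, norm_one, Complex.norm_natCast, geom_sum_eq h, norm_div, mul_comm]
    refine mul_le_mul_of_nonneg_right ?_ (by positivity)
    refine div_le_div_of_nonneg_right ?_ (norm_nonneg _)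
    refine (norm_sub_le _ _).trans ?_
    rw [norm_pow, hq, one_pow, norm_one]
    norm_num
  refine squeeze_zero (fun N => norm_nonneg _) h1 ?_
  have h2 := (tendsto_one_div_atTop_nhds_zero_nat (𝕜 := ℝ)).const_mul (2 / ‖q - 1‖)
  rwa [mul_zero] at h2

/-- the bound of the means -/
def eps (N : ℕ) : ℝ := ∫ p, ‖S N (Q p)‖ ∂(ν.prod ν)

theorem S_cont (N : ℕ) : Continuous fun p => S N (Q p) := by
  unfold S
  have := Q_cont
  fun_prop

theorem eps_tendsto (h : parallel ν = 0) : Tendsto (eps ν) atTop (𝓝 0) := by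
  have h0 : ∀ᵐ p ∂(ν.prod ν), Q p ≠ 1 := by
    unfold parallel at h
    rw [measureReal_eq_zero_iff] at h
    refine measure_mono_null ?_ h
    intro p hp
    have hp' : ¬ (Q p ≠ 1) := hp
    push Not at hp'
    exact Q_one hp'
  have h1 : Tendsto (fun N => ∫ p, ‖S N (Q p)‖ ∂(ν.prod ν)) atTop
      (𝓝 (∫ _, (0 : ℝ) ∂(ν.prod ν))) := by
    refine tendsto_integral_of_dominated_convergence (fun _ => (1 : ℝ))
      (fun N => (S_cont N).norm.aestronglyMeasurable) (integrable_const 1) ?_ ?_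
    · intro N
      refine Filter.Eventually.of_forall fun p => ?_
      rw [norm_norm]
      exact S_le N (Q_norm p)
    · filter_upwards [h0] with p hp
      exact S_tendsto (Q_norm p) hp
  rw [integral_zero] at h1
  exact h1

theorem mean_le (N : ℕ) (m : ℤ) :
    (1 / (N : ℝ)) * ∑ j ∈ Finset.range N, ‖cf ν (2 * ((j : ℤ) + m))‖ ^ 2 ≤ eps ν N := by
  have h1 : (((1 / (N : ℝ)) * ∑ j ∈ Finset.range N, ‖cf ν (2 * ((j : ℤ) + m))‖ ^ 2 : ℝ) : ℂ) =
      ∫ p, Q p ^ m * S N (Q p) ∂(ν.prod ν) := by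
    have h2 : ∀ p, Q p ^ m * S N (Q p) =
        (1 / (N : ℂ)) * ∑ j ∈ Finset.range N, Q p ^ ((j : ℤ) + m) := by
      intro p
      unfold S
      rw [mul_left_comm, Finset.mul_sum]
      congr 1
      refine Finset.sum_congr rfl fun j _ => ?_
      rw [zpow_add₀ (Q_ne p), zpow_natCast, mul_comm]
    simp_rw [h2]
    rw [integral_const_mul, integral_finsetSum _ fun j _ => int_Q ν _, Complex.ofReal_mul,
      Complex.ofReal_sum]
    congr 1
    · push_cast
      rfl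
    · exact Finset.sum_congr rfl fun j _ => a_eq ν _
  have h3 : ‖(((1 / (N : ℝ)) * ∑ j ∈ Finset.range N,
      ‖cf ν (2 * ((j : ℤ) + m))‖ ^ 2 : ℝ) : ℂ)‖ ≤ eps ν N := by
    rw [h1]
    refine (norm_integral_le_integral_norm _).trans (le_of_eq ?_)
    unfold eps
    refine integral_congr_ae (Filter.Eventually.of_forall fun p => ?_)
    show ‖Q p ^ m * S N (Q p)‖ = ‖S N (Q p)‖
    rw [norm_mul, norm_zpow, Q_norm, one_zpow, one_mul]
  rw [Complex.norm_real, Real.norm_eq_abs] at h3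
  exact (le_abs_self _).trans h3

end

theorem WIEN : S_WIEN := by
  intro ν hν hpar l
  have heps := eps_tendsto ν hpar
  have hmean := fun (N : ℕ) (m : ℤ) => mean_le ν N m
  have h1 : ∀ N : ℕ, 1 ≤ N → |FN (cf ν) N l - (1 + ‖cf ν (2 * l)‖ ^ 2)| ≤ 4 * eps ν N := by
    intro N hN
    have hN0 : (0 : ℝ) < N := by exact_mod_cast hN
    have hinv : (0 : ℝ) ≤ 1 / (N : ℝ) := by positivity
    -- the single sums
    set x1 := (1 / (N : ℝ)) * ∑ j ∈ Finset.range N, ‖cf ν (2 * (j : ℤ))‖ ^ 2 with hx1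
    set x2 := (1 / (N : ℝ)) * ∑ j ∈ Finset.range N, ‖cf ν (2 * (j : ℤ) - 2 * l)‖ ^ 2 with hx2
    have b1 : x1 ≤ eps ν N := by
      have := hmean N 0
      simp only [add_zero] at this
      exact this
    have b2 : x2 ≤ eps ν N := by
      have := hmean N (-l)
      refine le_trans (le_of_eq ?_) this
      rw [hx2]
      congr 1
      refine Finset.sum_congr rfl fun j _ => ?_
      rw [show 2 * (j : ℤ) - 2 * l = 2 * ((j : ℤ) + -l) by ring]
    have c1 : 0 ≤ x1 := mul_nonneg hinv (Finset.sum_nonneg fun j _ => sq_nonneg _)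
    have c2 : 0 ≤ x2 := mul_nonneg hinv (Finset.sum_nonneg fun j _ => sq_nonneg _)
    -- the double sums
    set x3 := (1 / (N : ℝ)) * ∑ i ∈ Finset.range N, (1 / (N : ℝ)) *
      ∑ j ∈ Finset.range N, ‖cf ν (2 * ((i : ℤ) - (j : ℤ)))‖ ^ 2 with hx3
    set x4 := (1 / (N : ℝ)) * ∑ i ∈ Finset.range N, (1 / (N : ℝ)) *
      ∑ j ∈ Finset.range N, ‖cf ν (2 * ((i : ℤ) + (j : ℤ)) - 2 * l)‖ ^ 2 with hx4
    have avg : ∀ f : ℕ → ℝ, (∀ i, f i ≤ eps ν N) →
        (1 / (N : ℝ)) * ∑ i ∈ Finset.range N, f i ≤ eps ν N := by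
      intro f hf
      calc (1 / (N : ℝ)) * ∑ i ∈ Finset.range N, f i
          ≤ (1 / (N : ℝ)) * ∑ i ∈ Finset.range N, eps ν N :=
            mul_le_mul_of_nonneg_left (Finset.sum_le_sum fun i _ => hf i) hinv
        _ = eps ν N := by
            rw [Finset.sum_const, Finset.card_range, nsmul_eq_mul]
            field_simp
    have b3 : x3 ≤ eps ν N := by
      refine avg _ fun i => ?_
      have := hmean N ((i : ℤ) - ((N - 1 : ℕ) : ℤ))
      refine le_trans (le_of_eq ?_) this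
      congr 1
      rw [← Finset.sum_range_reflect]
      refine Finset.sum_congr rfl fun j hj => ?_
      rw [Finset.mem_range] at hj
      have h2 : ((N - 1 - j : ℕ) : ℤ) = ((N - 1 : ℕ) : ℤ) - (j : ℤ) := by omega
      rw [h2, show 2 * ((i : ℤ) - (((N - 1 : ℕ) : ℤ) - (j : ℤ))) =
        2 * ((j : ℤ) + ((i : ℤ) - ((N - 1 : ℕ) : ℤ))) by ring]
    have b4 : x4 ≤ eps ν N := by
      refine avg _ fun i => ?_
      have := hmean N ((i : ℤ) - l)
      refine le_trans (le_of_eq ?_) this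
      congr 1
      refine Finset.sum_congr rfl fun j _ => ?_
      rw [show 2 * ((i : ℤ) + (j : ℤ)) - 2 * l = 2 * ((j : ℤ) + ((i : ℤ) - l)) by ring]
    have c3 : 0 ≤ x3 := mul_nonneg hinv (Finset.sum_nonneg fun i _ =>
      mul_nonneg hinv (Finset.sum_nonneg fun j _ => sq_nonneg _))
    have c4 : 0 ≤ x4 := mul_nonneg hinv (Finset.sum_nonneg fun i _ =>
      mul_nonneg hinv (Finset.sum_nonneg fun j _ => sq_nonneg _))
    have e : FN (cf ν) N l - (1 + ‖cf ν (2 * l)‖ ^ 2) = -(2 * (x1 + x2)) + (x3 + x4) := by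
      unfold FN
      rw [hx1, hx2, hx3, hx4]
      simp only [Finset.sum_add_distrib, ← Finset.mul_sum]
      ring
    rw [e, abs_le]
    constructor <;> linarith
  have h2 : Tendsto (fun N => 4 * eps ν N) atTop (𝓝 0) := by
    have := heps.const_mul 4
    rwa [mul_zero] at this
  rw [tendsto_iff_norm_sub_tendsto_zero]
  refine squeeze_zero' (Filter.Eventually.of_forall fun N => norm_nonneg _) ?_ h2
  filter_upwards [eventually_ge_atTop 1] with N hN
  rw [Real.norm_eq_abs]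
  exact h1 N hN

end

end Pool.Agent.N868.BRWIEN
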