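import Pool.Agent.N699.PC.Stm

/-!
# Q3/LOC1 .. LOC4: local obstructions
-/

set_option autoImplicit false

namespace Pool.Agent.N868.Q3

open Pool.Agent.N699.PC

theorem sq16 (x : ℕ) : x ^ 2 % 16 = 0 ∨ x ^ 2 % 16 = 1 ∨ x ^ 2 % 16 = 4 ∨ x ^ 2 % 16 = 9 := by
  have h : ∀ r < 16, r ^ 2 % 16 = 0 ∨ r ^ 2 % 16 = 1 ∨ r ^ 2 % 16 = 4 ∨ r ^ 2 % 16 = 9 := by
    decide
  have h1 := h (x % 16) (Nat.mod_lt _ (by norm_num))
  rw [← Nat.pow_mod] at h1
  exact h1

theorem sq8 (x : ℕ) : (x % 2 = 1 ∧ x ^ 2 % 8 = 1) ∨ (x % 2 = 0 ∧ (x ^ 2 % 8 = 0 ∨ x ^ 2 % 8 = 4)) := by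
  have h : ∀ r < 8, (r % 2 = 1 ∧ r ^ 2 % 8 = 1) ∨
      (r % 2 = 0 ∧ (r ^ 2 % 8 = 0 ∨ r ^ 2 % 8 = 4)) := by
    decide
  have h1 := h (x % 8) (Nat.mod_lt _ (by norm_num))
  rw [← Nat.pow_mod] at h1
  have h2 : x % 8 % 2 = x % 2 := by omega
  rw [h2] at h1
  exact h1

theorem half {x : ℕ} (h : x % 2 = 0) : ∃ u, x = 2 * u ∧ x ^ 2 = 4 * u ^ 2 := by
  refine ⟨x / 2, by omega, ?_⟩
  have e : x = 2 * (x / 2) := by omega
  calc x ^ 2 = (2 * (x / 2)) ^ 2 := by rw [← e]
    _ = 4 * (x / 2) ^ 2 := by ring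

theorem t_LOC1 : LOC1 := by
  intro k
  induction k with
  | zero =>
    intro m x y z h
    have hx := sq8 x
    have hy := sq8 y
    have hz := sq8 z
    rw [pow_zero, one_mul] at h
    generalize x ^ 2 = a at *
    generalize y ^ 2 = b at *
    generalize z ^ 2 = c at *
    omega
  | succ k ih =>
    intro m x y z h
    have e : x ^ 2 + 4 ^ (k + 1) * (8 * m + 1) = x ^ 2 + 4 * (4 ^ k * (8 * m + 1)) := by ring
    rw [e] at h
    have hx := sq8 x
    have hy := sq8 y
    have hz := sq8 z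
    have h2 : x % 2 = 0 ∧ y % 2 = 0 ∧ z % 2 = 0 := by
      generalize x ^ 2 = a at *
      generalize y ^ 2 = b at *
      generalize z ^ 2 = c at *
      generalize 4 ^ k * (8 * m + 1) = d at *
      omega
    obtain ⟨u, -, hu⟩ := half h2.1
    obtain ⟨v, -, hv⟩ := half h2.2.1
    obtain ⟨w, -, hw⟩ := half h2.2.2
    refine ih m u v w ?_
    rw [hu, hv, hw] at h
    generalize 4 ^ k * (8 * m + 1) = d at *
    omega

theorem t_LOC2 : LOC2 := by
  intro k
  induction k with
  | zero =>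
    intro m y z h
    rw [pow_zero, one_mul] at h
    generalize y ^ 2 = b at *
    generalize z ^ 2 = c at *
    omega
  | succ k ih =>
    intro m y z h
    have e : 4 ^ (k + 1) * (2 * m + 1) = 4 * (4 ^ k * (2 * m + 1)) := by ring
    rw [e] at h
    have hy := sq8 y
    have hz := sq8 z
    have hd : (4 ^ k * (2 * m + 1)) % 2 = 1 ∨ (4 ^ k * (2 * m + 1)) % 4 = 0 := by
      rcases Nat.eq_zero_or_pos k with rfl | hk
      · left; rw [pow_zero, one_mul]; omega
      · right
        obtain ⟨j, rfl⟩ : ∃ j, k = j + 1 := ⟨k - 1, by omega⟩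
        have : 4 ^ (j + 1) * (2 * m + 1) = 4 * (4 ^ j * (2 * m + 1)) := by ring
        rw [this]
        omega
    have h2 : y % 2 = 0 ∧ z % 2 = 0 := by
      generalize y ^ 2 = b at *
      generalize z ^ 2 = c at *
      generalize 4 ^ k * (2 * m + 1) = d at *
      omega
    obtain ⟨v, -, hv⟩ := half h2.1
    obtain ⟨w, -, hw⟩ := half h2.2
    refine ih m v w ?_
    rw [hv, hw] at h
    generalize 4 ^ k * (2 * m + 1) = d at *
    omega

theorem t_LOC3 : LOC3 := by
  intro k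
  induction k with
  | zero =>
    intro m x y h
    have hx := sq16 x
    have hy := sq16 y
    rw [pow_zero, one_mul] at h
    generalize x ^ 2 = a at *
    generalize y ^ 2 = b at *
    omega
  | succ k ih =>
    intro m x y h
    have e : x ^ 2 + 4 ^ (k + 1) * (16 * m + 6) = x ^ 2 + 4 * (4 ^ k * (16 * m + 6)) := by ring
    rw [e] at h
    have hx := sq8 x
    have hy := sq8 y
    have h2 : x % 2 = 0 ∧ y % 2 = 0 := by
      generalize x ^ 2 = a at *
      generalize y ^ 2 = b at *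
      generalize 4 ^ k * (16 * m + 6) = d at *
      omega
    obtain ⟨u, -, hu⟩ := half h2.1
    obtain ⟨v, -, hv⟩ := half h2.2
    refine ih m u v ?_
    rw [hu, hv] at h
    generalize 4 ^ k * (16 * m + 6) = d at *
    omega

theorem t_LOC4 : LOC4 := by
  intro k
  induction k with
  | zero =>
    intro m y z h
    have hy := sq8 y
    have hz := sq8 z
    rw [pow_zero, one_mul] at h
    have hz0 : z % 2 = 0 := by
      generalize y ^ 2 = b at *
      generalize z ^ 2 = c at *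
      omega
    obtain ⟨w, -, hw⟩ := half hz0
    have hw8 := sq8 w
    rw [hw] at h
    generalize y ^ 2 = b at *
    generalize w ^ 2 = c at *
    omega
  | succ k ih =>
    intro m y z h
    have e : 4 ^ (k + 1) * (48 * m + 38) = 4 * (4 ^ k * (48 * m + 38)) := by ring
    rw [e] at h
    have hy := sq8 y
    have hz := sq8 z
    have h2 : y % 2 = 0 ∧ z % 2 = 0 := by
      generalize y ^ 2 = b at *
      generalize z ^ 2 = c at *
      generalize 4 ^ k * (48 * m + 38) = d at *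
      omega
    obtain ⟨v, -, hv⟩ := half h2.1
    obtain ⟨w, -, hw⟩ := half h2.2
    refine ih m v w ?_
    rw [hv, hw] at h
    generalize 4 ^ k * (48 * m + 38) = d at *
    omega

end Pool.Agent.N868.Q3
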