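import Pool.Agent.N212.KS.Stm

set_option autoImplicit false

open Filter Topology

namespace Pool.Agent.N868.KS

universe z

theorem t_GROW : Pool.Agent.N212.KS.S_GROW.{z} := by
  intro ι _ κ A B C lam mu hA hC hκ hlam hmu
  have hd : 0 < mu - lam := by linarith
  obtain ⟨n0, hn0⟩ : ∃ n0 : ℝ, n0 = (Fintype.card ι : ℝ) := ⟨_, rfl⟩
  have hn00 : 0 ≤ n0 := by rw [hn0]; positivity
  obtain ⟨P, hP⟩ : ∃ P : ℝ, P = A * n0 * C + |B| := ⟨_, rfl⟩
  obtain ⟨Q, hQ⟩ : ∃ Q : ℝ, Q = A * n0 * C / (mu - lam) := ⟨_, rfl⟩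
  have hP0 : 0 ≤ P := by rw [hP]; positivity
  have hQ0 : 0 ≤ Q := by rw [hQ]; positivity
  obtain ⟨s, hs⟩ : ∃ s : ℝ, s = 1 + P + Q := ⟨_, rfl⟩
  have hs1 : 1 ≤ s := by linarith
  have hK : P + Q * s ≤ s ^ 2 := by
    have h1 : s ^ 2 = s * 1 + P * s + Q * s := by
      rw [hs]; ring
    rw [h1]
    nlinarith
  obtain ⟨E, hE⟩ : ∃ E : ℝ, E = C + C * s / (mu - lam) := ⟨_, rfl⟩
  have hCE : C ≤ E := by
    have : 0 ≤ C * s / (mu - lam) := by positivity
    linarith
  have hE0 : 0 ≤ E := hC.trans hCE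
  have hAE : A * (n0 * E) + |B| = P + Q * s := by
    rw [hE, hP, hQ]; ring
  have hEm : lam * E + C * s ≤ mu * E := by
    have h1 : (mu - lam) * E = (mu - lam) * C + C * s := by
      rw [hE]
      field_simp
    have h2 : 0 ≤ (mu - lam) * C := mul_nonneg hd.le hC
    nlinarith
  refine ⟨s ^ 2, by positivity, fun M a hM ha ha0 hMA => ?_⟩
  have hmu1 : 1 ≤ mu := by linarith
  have hT : ∀ n : ℕ, 1 ≤ mu ^ n * M 0 := fun n =>
    one_le_mul_of_one_le_of_one_le (one_le_pow₀ hmu1) (hM 0)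
  have key1 : ∀ n : ℕ, (∀ i, |a i n| ≤ E * (mu ^ n * M 0)) → M n ≤ s ^ 2 * (mu ^ n * M 0) := by
    intro n hn
    have h1 : ∑ i, a i n ≤ n0 * (E * (mu ^ n * M 0)) := by
      calc ∑ i, a i n ≤ ∑ _i : ι, E * (mu ^ n * M 0) :=
            Finset.sum_le_sum fun i _ => (le_abs_self _).trans (hn i)
        _ = n0 * (E * (mu ^ n * M 0)) := by
            rw [Finset.sum_const, Finset.card_univ, nsmul_eq_mul, hn0]
    have h2 : B ≤ |B| * (mu ^ n * M 0) :=
      (le_abs_self B).trans (le_mul_of_one_le_right (abs_nonneg _) (hT n))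
    calc M n ≤ A * ∑ i, a i n + B := hMA n
      _ ≤ A * (n0 * (E * (mu ^ n * M 0))) + |B| * (mu ^ n * M 0) :=
          add_le_add (mul_le_mul_of_nonneg_left h1 hA.le) h2
      _ = (A * (n0 * E) + |B|) * (mu ^ n * M 0) := by ring
      _ ≤ s ^ 2 * (mu ^ n * M 0) := by
          apply mul_le_mul_of_nonneg_right _ (by linarith [hT n])
          rw [hAE]
          exact hK
  have key2 : ∀ n : ℕ, ∀ i, |a i n| ≤ E * (mu ^ n * M 0) := by
    intro n
    induction n with
    | zero =>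
      intro i
      have hM0 : 0 ≤ M 0 := by linarith [hM 0]
      calc |a i 0| ≤ C * M 0 := ha0 i
        _ ≤ E * M 0 := mul_le_mul_of_nonneg_right hCE hM0
        _ = E * (mu ^ 0 * M 0) := by ring
    | succ n ih =>
      intro i
      have h0 : 0 ≤ mu ^ n * M 0 := by linarith [hT n]
      have h1 : √(M n) ≤ s * (mu ^ n * M 0) := by
        calc √(M n) ≤ √(s ^ 2 * (mu ^ n * M 0)) := Real.sqrt_le_sqrt (key1 n ih)
          _ ≤ √(s ^ 2 * (mu ^ n * M 0) ^ 2) := by
              apply Real.sqrt_le_sqrt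
              apply mul_le_mul_of_nonneg_left _ (by positivity)
              nlinarith [hT n]
          _ = s * (mu ^ n * M 0) := by
              rw [← mul_pow, Real.sqrt_sq (by positivity)]
      have h2 : |a i (n + 1)| ≤ |a i (n + 1) - κ i * a i n| + κ i * |a i n| := by
        have e1 : a i (n + 1) = (a i (n + 1) - κ i * a i n) + κ i * a i n := by ring
        calc |a i (n + 1)| = |(a i (n + 1) - κ i * a i n) + κ i * a i n| := by rw [← e1]
          _ ≤ |a i (n + 1) - κ i * a i n| + |κ i * a i n| := abs_add_le _ _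
          _ = _ := by rw [abs_mul, abs_of_pos (hκ i).1]
      have h3 : κ i * |a i n| ≤ lam * (E * (mu ^ n * M 0)) :=
        mul_le_mul (hκ i).2 (ih i) (abs_nonneg _) (by linarith)
      have h4 : C * √(M n) ≤ C * (s * (mu ^ n * M 0)) := mul_le_mul_of_nonneg_left h1 hC
      calc |a i (n + 1)| ≤ C * (s * (mu ^ n * M 0)) + lam * (E * (mu ^ n * M 0)) := by
            linarith [ha i n]
        _ = (lam * E + C * s) * (mu ^ n * M 0) := by ring
        _ ≤ (mu * E) * (mu ^ n * M 0) := mul_le_mul_of_nonneg_right hEm h0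
        _ = E * (mu ^ (n + 1) * M 0) := by ring
  intro n
  calc M n ≤ s ^ 2 * (mu ^ n * M 0) := key1 n (key2 n)
    _ = s ^ 2 * mu ^ n * M 0 := by ring

end Pool.Agent.N868.KS
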