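import Pool.Agent.N964.MX.Defs2

set_option autoImplicit false

/-!
# MX2/D: the numerical bound
-/

namespace Pool.Agent.N868.MX2D

open Pool.Agent.N964.MX

/-- the thresholds -/
theorem exists_M0 {B : ℝ} (hB : 1 ≤ B) : ∃ M0 : ℝ, ∀ m : ℝ, M0 ≤ m →
    B * m ^ 3 ≤ Real.exp (m / 4) ∧ 10 ^ 4 * Real.exp 5 * B ≤ Real.exp (m / 2) ∧ 2 ≤ m := by
  have hB0 : 0 < B := by linarith
  have h1 := (isLittleO_pow_exp_pos_mul_atTop (b := 1 / 4) 3 (by norm_num)).bound
    (show (0 : ℝ) < 1 / B by positivity)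
  have h2 : ∀ᶠ m : ℝ in Filter.atTop, 10 ^ 4 * Real.exp 5 * B ≤ Real.exp (m / 2) := by
    have : Filter.Tendsto (fun m : ℝ => Real.exp (m / 2)) Filter.atTop Filter.atTop :=
      Real.tendsto_exp_atTop.comp (Filter.tendsto_id.atTop_div_const (by norm_num))
    exact this.eventually_ge_atTop _
  obtain ⟨M, hM⟩ := Filter.eventually_atTop.1 (h1.and (h2.and (Filter.eventually_ge_atTop 2)))
  refine ⟨M, fun m hm => ?_⟩
  obtain ⟨h3, h4, h5⟩ := hM m hm
  refine ⟨?_, h4, h5⟩
  have hm0 : 0 ≤ m := by linarith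
  rw [Real.norm_of_nonneg (by positivity), Real.norm_of_nonneg (Real.exp_pos _).le] at h3
  have h6 := mul_le_mul_of_nonneg_left h3 hB0.le
  have e : B * (1 / B * Real.exp (1 / 4 * m)) = Real.exp (m / 4) := by
    rw [← mul_assoc, mul_one_div_cancel hB0.ne', one_mul]
    congr 1
    ring
  rwa [e] at h6

/-- the piece `i` -/
theorem piece_le (i : ℕ) : (13 : ℝ) ^ i * Real.exp (-(((2 : ℝ) ^ i - 1) / 4)) ≤ 10 ^ 4 := by
  have h1 : (13 : ℝ) ^ i ≤ ((2 : ℝ) ^ i) ^ 4 := by
    rw [← pow_mul, mul_comm i 4, pow_mul]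
    exact pow_le_pow_left₀ (by norm_num) (by norm_num) i
  set X : ℝ := (2 : ℝ) ^ i with hX
  have hX0 : 0 < X := by positivity
  have h2 : (X / 4) ^ 4 / 24 ≤ Real.exp (X / 4) := by
    have := Real.pow_div_factorial_le_exp (X / 4) (by positivity) 4
    simpa [Nat.factorial] using this
  have h3 : X ^ 4 ≤ 6144 * Real.exp (X / 4) := by
    have : (X / 4) ^ 4 / 24 = X ^ 4 / 6144 := by ring
    rw [this] at h2
    linarith
  have h4 : Real.exp (-((X - 1) / 4)) = Real.exp (-(X / 4)) * Real.exp (1 / 4) := by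
    rw [← Real.exp_add]
    congr 1
    ring
  have h5 : Real.exp (1 / 4) ≤ 3 / 2 := by
    have h6 : Real.exp (1 / 4) ^ 4 = Real.exp 1 := by
      rw [← Real.exp_nat_mul]
      norm_num
    have h7 := Real.exp_one_lt_d9
    by_contra h8
    push Not at h8
    have h9 : (3 / 2 : ℝ) ^ 4 < Real.exp (1 / 4) ^ 4 := pow_lt_pow_left₀ h8 (by norm_num) (by norm_num)
    rw [h6] at h9
    norm_num at h9
    linarith
  rw [h4]
  have h6 : Real.exp (X / 4) * Real.exp (-(X / 4)) = 1 := by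
    rw [← Real.exp_add, add_neg_cancel, Real.exp_zero]
  calc (13 : ℝ) ^ i * (Real.exp (-(X / 4)) * Real.exp (1 / 4))
      ≤ (6144 * Real.exp (X / 4)) * (Real.exp (-(X / 4)) * (3 / 2)) := by
        refine mul_le_mul (h1.trans h3) (mul_le_mul_of_nonneg_left h5 (Real.exp_pos _).le)
          (by positivity) (by positivity)
    _ = 6144 * (3 / 2) * (Real.exp (X / 4) * Real.exp (-(X / 4))) := by ring
    _ ≤ 10 ^ 4 := by rw [h6]; norm_num

theorem core {B δ τ m : ℝ} {V i : ℕ} (hB : 1 ≤ B) (hδ : 0 < δ) (hm : m = Real.log (1 / δ))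
    (hm1 : B * m ^ 3 ≤ Real.exp (m / 4)) (hm2 : 10 ^ 4 * Real.exp 5 * B ≤ Real.exp (m / 2))
    (hm3 : 2 ≤ m) (hτ : Real.exp 2 ≤ τ) (hτδ : τ ≤ 1 / δ ^ 3) (hV1 : 1 / (δ * m ^ 3) ≤ (V : ℝ))
    (hV2 : (V : ℝ) ≤ τ / Real.log τ) (hi : (2 : ℝ) ^ i - 1 ≤ m / 2) :
    Real.exp (((V : ℝ) + 1) * Real.log (1 + ((V : ℝ) + 1) / (τ * δ)) + 5 * ((V : ℝ) + 1)) *
      (B * 13 ^ i / (m * V)) ^ (V + ⌊(V : ℝ) * ((2 ^ i - 1) / m)⌋₊) ≤
    Real.exp ((9 + 4 * 10 ^ 4 * Real.exp 5 * B) * (1 / (δ * m ^ 2))) := by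
  have hB0 : 0 < B := by linarith
  have hm0 : 0 < m := by linarith
  have hE : 1 / δ = Real.exp m := by rw [hm, Real.exp_log (by positivity)]
  have hτ0 : 0 < τ := (Real.exp_pos _).trans_le hτ
  have hlτ : 2 ≤ Real.log τ := by rw [Real.le_log_iff_exp_le hτ0]; exact hτ
  set v : ℝ := (V : ℝ) with hv
  -- the size of `v`
  have hm3' : m ^ 3 ≤ Real.exp (m / 2) := by
    have h1 : m ^ 3 ≤ B * m ^ 3 := le_mul_of_one_le_left (by positivity) hB
    have h2 : Real.exp (m / 4) ≤ Real.exp (m / 2) := Real.exp_le_exp.2 (by linarith)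
    linarith
  have hexp2 : Real.exp (m / 2) * Real.exp (m / 2) = Real.exp m := by
    rw [← Real.exp_add]
    congr 1
    ring
  have hv1 : Real.exp (m / 2) ≤ v := by
    refine le_trans ?_ hV1
    have h1 : 1 / (δ * m ^ 3) = Real.exp m / m ^ 3 := by
      rw [← hE]
      field_simp
    rw [h1, le_div_iff₀ (by positivity), ← hexp2]
    exact mul_le_mul_of_nonneg_left hm3' (Real.exp_pos _).le
  have hv2 : 1 ≤ v := le_trans (Real.one_le_exp (by linarith)) hv1
  have hv0 : 0 < v := by linarith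
  have hvτ : v * Real.log τ ≤ τ := by
    rwa [le_div_iff₀ (by linarith)] at hV2
  have hvτ2 : 2 * v ≤ τ := by nlinarith
  have hlv : m / 2 ≤ Real.log v := by
    rw [Real.le_log_iff_exp_le hv0]
    exact hv1
  have hlvτ : Real.log v ≤ Real.log τ := Real.log_le_log hv0 (by linarith)
  have hlτm : m / 2 ≤ Real.log τ := hlv.trans hlvτ
  have hlτ3 : Real.log τ ≤ 3 * m := by
    have h1 : Real.log τ ≤ Real.log (1 / δ ^ 3) := Real.log_le_log hτ0 hτδ
    have h2 : (1 : ℝ) / δ ^ 3 = (1 / δ) ^ 3 := by rw [div_pow, one_pow]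
    rw [h2, Real.log_pow, ← hm] at h1
    simpa using h1
  -- the quotient
  set X : ℝ := (2 : ℝ) ^ i with hX
  have hX1 : 1 ≤ X := one_le_pow₀ (by norm_num)
  have hXm : X ≤ m := by linarith
  have h13 : (13 : ℝ) ^ i ≤ X ^ 4 := by
    rw [hX, ← pow_mul, mul_comm i 4, pow_mul]
    exact pow_le_pow_left₀ (by norm_num) (by norm_num) i
  set q : ℝ := B * 13 ^ i / (m * v) with hq
  have hq0 : 0 < q := by positivity
  have hq1 : q ≤ Real.exp (-(Real.log v / 2)) := by
    have h1 : Real.exp (-(Real.log v / 2)) = Real.exp (Real.log v / 2) / v := by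
      rw [eq_div_iff hv0.ne']
      nth_rewrite 2 [← Real.exp_log hv0]
      rw [← Real.exp_add]
      congr 1
      ring
    rw [h1, hq, div_le_div_iff₀ (by positivity) hv0]
    have h2 : (13 : ℝ) ^ i ≤ m ^ 4 := h13.trans (pow_le_pow_left₀ (by linarith) hXm 4)
    have h3 : Real.exp (m / 4) ≤ Real.exp (Real.log v / 2) := Real.exp_le_exp.2 (by linarith)
    calc B * 13 ^ i * v ≤ B * m ^ 4 * v := by gcongr
      _ = (B * m ^ 3) * (m * v) := by ring
      _ ≤ Real.exp (Real.log v / 2) * (m * v) :=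
          mul_le_mul_of_nonneg_right (hm1.trans h3) (by positivity)
  set F : ℕ := ⌊v * ((X - 1) / m)⌋₊ with hF
  have hqF : q ^ F ≤ Real.exp (Real.log v / 2) * Real.exp (-((X - 1) / 4)) ^ V := by
    have h1 : q ^ F ≤ Real.exp (-(Real.log v / 2)) ^ F := pow_le_pow_left₀ hq0.le hq1 F
    refine h1.trans ?_
    rw [← Real.exp_nat_mul, ← Real.exp_nat_mul, ← Real.exp_add]
    apply Real.exp_le_exp.2
    have h2 : v * ((X - 1) / m) < F + 1 := Nat.lt_floor_add_one _
    have h3 : 0 ≤ Real.log v / 2 := by linarith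
    have h4 : (v * ((X - 1) / m) - 1) * (Real.log v / 2) ≤ F * (Real.log v / 2) :=
      mul_le_mul_of_nonneg_right (by linarith) h3
    have h5 : v * ((X - 1) / 4) ≤ v * ((X - 1) / m) * (Real.log v / 2) := by
      have h6 : v * ((X - 1) / 4) = v * ((X - 1) / m) * (m / 4) := by
        field_simp
      rw [h6]
      refine mul_le_mul_of_nonneg_left (by linarith) ?_
      have : 0 ≤ X - 1 := by linarith
      positivity
    rw [← hv]
    linarith
  -- the first factor
  set y : ℝ := (v + 1) / (τ * δ) with hy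
  have hy0 : 0 < y := by positivity
  set A : ℝ := 10 ^ 4 * Real.exp 5 * B / m with hA
  have hA0 : 0 < A := by positivity
  have hyv : y * v⁻¹ ≤ 2 / (τ * δ) := by
    rw [hy, div_mul_eq_mul_div]
    refine div_le_div_of_nonneg_right ?_ (by positivity)
    rw [mul_inv_le_iff₀ hv0]
    linarith
  have hAv : A * v⁻¹ ≤ 1 := by
    rw [mul_inv_le_iff₀ hv0, one_mul, hA]
    refine (div_le_self (by positivity) (by linarith)).trans (hm2.trans hv1)
  set L : ℝ := Real.log (1 + y) with hL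
  have hexpL : Real.exp (L + 5) = (1 + y) * Real.exp 5 := by
    rw [Real.exp_add, hL, Real.exp_log (by linarith)]
  have hbase : Real.exp (L + 5) * q * Real.exp (-((X - 1) / 4)) ≤
      Real.exp (2 * A / (τ * δ)) := by
    have h1 : Real.exp (L + 5) * q * Real.exp (-((X - 1) / 4)) =
        (1 + y) * (Real.exp 5 * B / m * v⁻¹) * (13 ^ i * Real.exp (-((X - 1) / 4))) := by
      rw [hexpL, hq]
      field_simp
    have h2 : (1 + y) * (Real.exp 5 * B / m * v⁻¹) * (13 ^ i * Real.exp (-((X - 1) / 4))) ≤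
        (1 + y) * (Real.exp 5 * B / m * v⁻¹) * 10 ^ 4 :=
      mul_le_mul_of_nonneg_left (piece_le i) (by positivity)
    have h3 : (1 + y) * (Real.exp 5 * B / m * v⁻¹) * 10 ^ 4 = A * v⁻¹ + A * (y * v⁻¹) := by
      rw [hA]
      ring
    have h4 : A * (y * v⁻¹) ≤ 2 * A / (τ * δ) := by
      calc A * (y * v⁻¹) ≤ A * (2 / (τ * δ)) := mul_le_mul_of_nonneg_left hyv hA0.le
        _ = _ := by ring
    have h5 := Real.add_one_le_exp (2 * A / (τ * δ))
    rw [h1]
    linarith
  have hpow : (Real.exp (L + 5) * q * Real.exp (-((X - 1) / 4))) ^ V ≤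
      Real.exp (4 * A / (δ * m)) := by
    refine (pow_le_pow_left₀ (by positivity) hbase V).trans ?_
    rw [← Real.exp_nat_mul]
    apply Real.exp_le_exp.2
    rw [← hv]
    calc v * (2 * A / (τ * δ)) ≤ τ / Real.log τ * (2 * A / (τ * δ)) :=
          mul_le_mul_of_nonneg_right hV2 (by positivity)
      _ = 2 * A / (δ * Real.log τ) := by
          have : Real.log τ ≠ 0 := by linarith
          field_simp
      _ ≤ 2 * A / (δ * (m / 2)) := by
          refine div_le_div_of_nonneg_left (by positivity) (by positivity) ?_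
          exact mul_le_mul_of_nonneg_left hlτm hδ.le
      _ = 4 * A / (δ * m) := by
          field_simp
          ring
  have hLle : L ≤ m + 1 := by
    have h1 : y ≤ Real.exp m := by
      rw [← hE, hy, div_le_div_iff₀ (by positivity) hδ]
      nlinarith
    have h2 : 1 + y ≤ Real.exp (m + 1) := by
      rw [Real.exp_add]
      have h3 : (1 : ℝ) ≤ Real.exp m := Real.one_le_exp hm0.le
      have h4 := Real.exp_one_gt_d9
      nlinarith
    rw [hL, Real.log_le_iff_le_exp (by linarith)]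
    exact h2
  have hmδ : m ≤ 1 / (δ * m ^ 2) := by
    have h1 : 1 / (δ * m ^ 2) = Real.exp m / m ^ 2 := by
      rw [← hE]
      field_simp
    rw [h1, le_div_iff₀ (by positivity)]
    calc m * m ^ 2 = m ^ 3 := by ring
      _ ≤ Real.exp (m / 2) := hm3'
      _ ≤ Real.exp m := Real.exp_le_exp.2 (by linarith)
  -- conclusion
  have e1 : Real.exp ((v + 1) * L + 5 * (v + 1)) = Real.exp (L + 5) * Real.exp (L + 5) ^ V := by
    rw [← Real.exp_nat_mul, ← Real.exp_add, ← hv]
    congr 1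
    ring
  calc Real.exp ((v + 1) * L + 5 * (v + 1)) * q ^ (V + F)
      = Real.exp (L + 5) * (Real.exp (L + 5) * q) ^ V * q ^ F := by
        rw [e1, pow_add, mul_pow]
        ring
    _ ≤ Real.exp (L + 5) * (Real.exp (L + 5) * q) ^ V *
          (Real.exp (Real.log v / 2) * Real.exp (-((X - 1) / 4)) ^ V) :=
        mul_le_mul_of_nonneg_left hqF (by positivity)
    _ = Real.exp (L + 5) * Real.exp (Real.log v / 2) *
          (Real.exp (L + 5) * q * Real.exp (-((X - 1) / 4))) ^ V := by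
        rw [mul_pow _ (Real.exp (-((X - 1) / 4)))]
        ring
    _ ≤ Real.exp (L + 5) * Real.exp (Real.log v / 2) * Real.exp (4 * A / (δ * m)) :=
        mul_le_mul_of_nonneg_left hpow (by positivity)
    _ = Real.exp (L + 5 + Real.log v / 2 + 4 * A / (δ * m)) := by
        rw [Real.exp_add (L + 5 + Real.log v / 2), Real.exp_add (L + 5) (Real.log v / 2)]
    _ ≤ _ := by
        apply Real.exp_le_exp.2
        have h1 : 4 * A / (δ * m) = 4 * 10 ^ 4 * Real.exp 5 * B * (1 / (δ * m ^ 2)) := by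
          rw [hA]
          field_simp
        rw [h1, add_mul]
        have h2 : 0 ≤ 1 / (δ * m ^ 2) := by positivity
        linarith

theorem term : S_term := by
  intro B hB
  obtain ⟨M0, hM0⟩ := exists_M0 hB
  refine ⟨9 + 4 * 10 ^ 4 * Real.exp 5 * B, min (1 / 4) (Real.exp (-M0)), by positivity,
    lt_min (by norm_num) (Real.exp_pos _), min_le_left _ _, ?_⟩
  intro δ τ V i hδ hδ0 hτ hτδ hV1 hV2 hi
  have h1 : M0 ≤ Real.log (1 / δ) := by
    rw [Real.le_log_iff_exp_le (by positivity), le_div_iff₀ hδ]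
    have h2 : δ ≤ Real.exp (-M0) := hδ0.trans (min_le_right _ _)
    have h3 := mul_le_mul_of_nonneg_left h2 (Real.exp_pos M0).le
    rwa [← Real.exp_add, add_neg_cancel, Real.exp_zero] at h3
  obtain ⟨h2, h3, h4⟩ := hM0 _ h1
  exact core hB hδ rfl h2 h3 h4 hτ hτδ hV1 hV2 hi

end Pool.Agent.N868.MX2D
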