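import Pool.Agent.N964.MX.Defs2
import Pool.Agent.N964.MX.J

set_option autoImplicit false

/-!
# MX2/F: the converse
-/

namespace Pool.Agent.N868.MX2F

open Complex MeasureTheory Filter Topology
open Pool.Agent.H295R2
open Pool.Agent.N964.MX

/-- a majorant of the exponent -/
noncomputable def QR (x : ℝ) : ℝ := Real.sqrt (Real.log x)

lemma QR_mono {u v : ℝ} (hu : 3 ≤ u) (huv : u ≤ v) : QR u ≤ QR v := by
  unfold QR
  exact Real.sqrt_le_sqrt (Real.log_le_log (by linarith) huv)

lemma QR_nonneg (x : ℝ) : 0 ≤ QR x := Real.sqrt_nonneg _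

lemma QR_small {c : ℝ} (hc : 0 < c) : ∀ᶠ x : ℝ in atTop, QR x ≤ c * Real.log x := by
  filter_upwards [Real.tendsto_log_atTop.eventually (eventually_ge_atTop (1 / c ^ 2 + 1))]
    with x hx
  have h0 : 0 < 1 / c ^ 2 := by positivity
  have h1 : 0 < Real.log x := by linarith
  unfold QR
  refine Real.sqrt_le_iff.2 ⟨by positivity, ?_⟩
  have h2 : 1 ≤ c ^ 2 * Real.log x := by
    have h3 : c ^ 2 * (1 / c ^ 2) ≤ c ^ 2 * Real.log x :=
      mul_le_mul_of_nonneg_left (by linarith) (by positivity)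
    rwa [mul_one_div_cancel (by positivity)] at h3
  calc Real.log x = 1 * Real.log x := (one_mul _).symm
    _ ≤ (c ^ 2 * Real.log x) * Real.log x := mul_le_mul_of_nonneg_right h2 h1.le
    _ = (c * Real.log x) ^ 2 := by ring

theorem convR {C : ℝ} (hC : 0 ≤ C)
    (h : ∀ x : ℝ, 3 ≤ x → |Mx x| ≤ Real.sqrt x * Real.exp (C * QR x)) : RiemannHypothesis := by
  rw [Pool.Agent.N964.rh_free]
  have key : zetaSup ≤ 1 / 2 := by
    by_contra hc
    rw [not_le] at hc
    set ε := (zetaSup - 1 / 2) / 4 with hε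
    have hε0 : 0 < ε := by rw [hε]; linarith
    have h1 := mertens_local_lower (δ := 1) one_pos le_rfl hε0
    have h2 := tendsto_natCast_atTop_atTop.eventually (QR_small (c := ε / (C + 1)) (by positivity))
    have h3 : ∀ᶠ n : ℕ in atTop, (3 : ℝ) < (n : ℝ) ^ (1 / 2 : ℝ) :=
      ((tendsto_rpow_atTop (by norm_num)).comp tendsto_natCast_atTop_atTop).eventually_gt_atTop 3
    obtain ⟨n, hn1, hn2, hn3, hn4⟩ := (h1.and (h2.and (h3.and (eventually_ge_atTop 3)))).exists
    obtain ⟨k, hk1, hk2, hk3⟩ := hn1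
    rw [Real.rpow_one] at hk2
    have hn : (3 : ℝ) ≤ n := by exact_mod_cast hn4
    have hn0 : (0 : ℝ) < n := by linarith
    have hk0 : (0 : ℝ) < k := by exact_mod_cast hk1
    have hk1' : (1 : ℝ) ≤ k := by exact_mod_cast hk1
    have hle : (n : ℝ) / k ≤ n := by
      rw [div_le_iff₀ hk0]
      nlinarith
    have hup : |Mx ((n : ℝ) / k)| ≤ (n : ℝ) ^ (1 / 2 + ε) := by
      have e1 : (n : ℝ) ^ (1 / 2 + ε) = Real.sqrt n * Real.exp (ε * Real.log n) := by
        rw [Real.rpow_add hn0, Real.sqrt_eq_rpow]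
        congr 1
        rw [Real.rpow_def_of_pos hn0, mul_comm]
      rcases le_or_gt 3 ((n : ℝ) / k) with h4 | h4
      · refine (h _ h4).trans ?_
        rw [e1]
        refine mul_le_mul (Real.sqrt_le_sqrt hle) (Real.exp_le_exp.2 ?_) (Real.exp_pos _).le
          (Real.sqrt_nonneg _)
        have h5 := QR_mono h4 hle
        have h7 : C * QR ((n : ℝ) / k) ≤ C * QR n := mul_le_mul_of_nonneg_left h5 hC
        refine h7.trans ?_
        have h8 : QR n * (C + 1) ≤ ε * Real.log n := by
          have h9 : 0 < C + 1 := by positivity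
          have h10 := mul_le_mul_of_nonneg_right hn2 h9.le
          have e : ε / (C + 1) * Real.log n * (C + 1) = ε * Real.log n := by field_simp
          rw [e] at h10
          exact h10
        have h9 := QR_nonneg n
        nlinarith
      · have h5 : 0 ≤ (n : ℝ) / k := by positivity
        refine (abs_Mx_le h5).trans ?_
        rw [e1]
        have h6 : 1 ≤ Real.exp (ε * Real.log n) := Real.one_le_exp (by
          have := Real.log_nonneg (by linarith : (1 : ℝ) ≤ n)
          positivity)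
        rw [← Real.sqrt_eq_rpow] at hn3
        nlinarith
    have h5 : (n : ℝ) ^ (zetaSup - ε) ≤ (n : ℝ) ^ (1 / 2 + ε) := hk3.trans hup
    have h6 : (n : ℝ) ^ (1 / 2 + ε) < (n : ℝ) ^ (zetaSup - ε) := by
      refine Real.rpow_lt_rpow_of_exponent_lt (by linarith) ?_
      rw [hε]; linarith
    linarith
  intro s hs h0
  have h1 : Zs s ≠ 0 := zetaSup_free s (by linarith)
  by_cases hs1 : s = 1
  · rw [hs1] at h0
    exact riemannZeta_one_ne_zero h0
  · rw [← Zs_eq hs1] at h1
    exact h1 (by rw [h0, mul_zero])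

theorem conv2 : S_conv2 := by
  rintro ⟨C, hC⟩
  refine convR (C := 13 * |C|) (by positivity) fun x hx => (hC x hx).trans ?_
  refine mul_le_mul_of_nonneg_left (Real.exp_le_exp.2 ?_) (Real.sqrt_nonneg _)
  have h1 := loglog_ge hx
  have h2 : 0 ≤ Real.sqrt (Real.log x) := Real.sqrt_nonneg _
  have h3 : Real.sqrt (Real.log x) / Real.log (Real.log x) ≤ 13 * Real.sqrt (Real.log x) := by
    rw [div_le_iff₀ (by linarith)]
    nlinarith
  have h4 : 0 ≤ Real.sqrt (Real.log x) / Real.log (Real.log x) :=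
    div_nonneg h2 (by linarith)
  calc C * (Real.sqrt (Real.log x) / Real.log (Real.log x))
      ≤ |C| * (Real.sqrt (Real.log x) / Real.log (Real.log x)) :=
        mul_le_mul_of_nonneg_right (le_abs_self C) h4
    _ ≤ |C| * (13 * Real.sqrt (Real.log x)) := mul_le_mul_of_nonneg_left h3 (abs_nonneg _)
    _ = 13 * |C| * QR x := by unfold QR; ring

end Pool.Agent.N868.MX2F
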